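import Pool.Agent.N714.Shape.Pairs

/-!
Counting the integers with a representation of a given shape.
-/

set_option autoImplicit false

namespace Pool.Agent.N714.Shape

open Finset
open Pool.Agent.TH314.ETH (tup RF RF_le rep)
open Pool.Agent.TH314.ET (seg mem_seg seg_sub)
open Pool.Agent.R509.ET (dif)

/-- the integers in `(N, 2N]` with a representation near the multiple `n z` of the shape `z` -/
def good (A : Set ℕ) (h : ℕ) (z : Fin h → ℝ) (N : ℕ) (L : ℝ) : Set ℕ :=
  {n | N < n ∧ n ≤ 2 * N ∧ ∃ a : Fin h → ℕ, (∀ i, a i ∈ A) ∧ ∑ i, a i = n ∧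
    ∀ i, |(a i : ℝ) - z i * n| ≤ L}

/-- the elements of `A` near `c` -/
noncomputable def win (A : Set ℕ) (N : ℕ) (c : ℝ) (L : ℕ) : Finset ℕ := by
  classical exact (range (2 * N + 1)).filter fun a : ℕ => a ∈ A ∧ |(a : ℝ) - c| ≤ 2 * L

lemma mem_win {A : Set ℕ} {N : ℕ} {c : ℝ} {L a : ℕ} :
    a ∈ win A N c L ↔ a ≤ 2 * N ∧ a ∈ A ∧ |(a : ℝ) - c| ≤ 2 * L := by
  classical
  unfold win
  rw [mem_filter, mem_range, Nat.lt_succ_iff]

/-- the number of integers in an interval -/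
lemma card_near (T : Finset ℕ) (c r : ℝ) (hr : 0 ≤ r) (hT : ∀ m ∈ T, |(m : ℝ) - c| ≤ r) :
    (T.card : ℝ) ≤ 2 * r + 1 := by
  rcases T.eq_empty_or_nonempty with rfl | ⟨m₀, hm₀⟩
  · simp only [card_empty, Nat.cast_zero]; linarith
  have h0 := abs_le.1 (hT m₀ hm₀)
  have h1 : 0 ≤ c + r := by
    have : (0 : ℝ) ≤ m₀ := Nat.cast_nonneg _
    linarith
  have h2 : T ⊆ Icc ⌈c - r⌉₊ ⌊c + r⌋₊ := by
    intro m hm
    have h3 := abs_le.1 (hT m hm)
    rw [mem_Icc]
    exact ⟨Nat.ceil_le.2 (by linarith), Nat.le_floor (by linarith)⟩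
  have h3 := card_le_card h2
  rw [Nat.card_Icc] at h3
  have h4 : ⌈c - r⌉₊ ≤ ⌊c + r⌋₊ := by
    have := mem_Icc.1 (h2 hm₀)
    omega
  have h5 : (T.card : ℝ) ≤ ⌊c + r⌋₊ + 1 - ⌈c - r⌉₊ := by
    have : T.card + ⌈c - r⌉₊ ≤ ⌊c + r⌋₊ + 1 := by omega
    have : (T.card : ℝ) + ⌈c - r⌉₊ ≤ ⌊c + r⌋₊ + 1 := by exact_mod_cast this
    linarith
  have h6 := Nat.floor_le h1
  have h7 := Nat.le_ceil (c - r)
  linarith

/-- the covering of the good integers by sums of elements of the windows -/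
lemma good_card (A : Set ℕ) (h : ℕ) (z : Fin h → ℝ) (hz0 : ∀ i, 0 ≤ z i) (hz1 : ∀ i, z i ≤ 1)
    (N L : ℕ) (hL : 1 ≤ L) :
    (good A h z N L).ncard ≤
      ∑ j ∈ range (N / L + 1), ∏ i, (win A N (z i * (N + j * L)) L).card := by
  classical
  have hsub : good A h z N L ⊆ (((range (N / L + 1)).biUnion fun j =>
      (Fintype.piFinset fun i => win A N (z i * (N + j * L)) L).image
        (fun a => ∑ i, a i) : Finset ℕ) : Set ℕ) := by
    rintro n ⟨h1, h2, a, ha, hs, hn⟩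
    rw [mem_coe, mem_biUnion]
    refine ⟨(n - N) / L, ?_, ?_⟩
    · rw [mem_range, Nat.lt_succ_iff]
      exact Nat.div_le_div_right (by omega)
    · rw [mem_image]
      refine ⟨a, ?_, hs⟩
      rw [Fintype.mem_piFinset]
      intro i
      rw [mem_win]
      have h3 : a i ≤ n := by
        rw [← hs]
        exact single_le_sum (f := a) (fun _ _ => Nat.zero_le _) (mem_univ i)
      refine ⟨by omega, ha i, ?_⟩
      set j := (n - N) / L with hj
      set t := (n - N) % L with ht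
      have h4 : t < L := Nat.mod_lt _ (by omega)
      have h5 : n = N + j * L + t := by
        have := Nat.div_add_mod (n - N) L
        rw [← hj, ← ht] at this
        have h6 : L * j = j * L := mul_comm _ _
        omega
      have h6 : (n : ℝ) = N + j * L + t := by exact_mod_cast h5
      have h7 := hn i
      have h8 : |z i * t| ≤ L := by
        rw [abs_of_nonneg (mul_nonneg (hz0 i) (Nat.cast_nonneg _))]
        have h9 : (t : ℝ) ≤ L := by exact_mod_cast h4.le
        calc z i * t ≤ 1 * L := mul_le_mul (hz1 i) h9 (Nat.cast_nonneg _) (by norm_num)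
          _ = L := one_mul _
      have h9 : (a i : ℝ) - z i * (N + j * L) = ((a i : ℝ) - z i * n) + z i * t := by
        rw [h6]; ring
      rw [h9]
      calc |((a i : ℝ) - z i * n) + z i * t| ≤ |(a i : ℝ) - z i * n| + |z i * t| := abs_add_le _ _
        _ ≤ 2 * L := by linarith
  calc (good A h z N L).ncard ≤ _ := Set.ncard_le_ncard hsub (Finset.finite_toSet _)
    _ = _ := Set.ncard_coe_finset _
    _ ≤ ∑ j ∈ range (N / L + 1), ((Fintype.piFinset fun i => win A N (z i * (N + j * L)) L).image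
        (fun a => ∑ i, a i)).card := card_biUnion_le
    _ ≤ _ := by
        refine sum_le_sum fun j _ => card_image_le.trans (le_of_eq ?_)
        rw [Fintype.card_piFinset]

/-- sets in short intervals -/
lemma short (A : Set ℕ) (h M R : ℕ) (hR : ∀ m ≤ h * M, rep A h m ≤ R) (S : Finset ℕ)
    (hSA : ∀ a ∈ S, a ∈ A) (hSM : ∀ a ∈ S, a ≤ M) (c r : ℝ) (hr : 0 ≤ r)
    (hS : ∀ a ∈ S, |(a : ℝ) - c| ≤ r) :
    (S.card : ℝ) ^ h ≤ (h : ℝ) ^ h * R * (2 * (h * r) + 1) := by
  classical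
  set T := (range (h * M + 1)).filter (fun m : ℕ => |(m : ℝ) - h * c| ≤ h * r) with hT
  have h1 : ∀ v ∈ tup S h, ∑ i, v i ∈ T := by
    intro v hv
    rw [tup, Fintype.mem_piFinset] at hv
    rw [hT, mem_filter, mem_range, Nat.lt_succ_iff]
    constructor
    · calc ∑ i, v i ≤ ∑ _i : Fin h, M := sum_le_sum fun i _ => hSM _ (hv i)
        _ = h * M := by rw [sum_const, card_univ, Fintype.card_fin, smul_eq_mul]
    · push_cast
      have h2 : (∑ i, (v i : ℝ)) - h * c = ∑ i, ((v i : ℝ) - c) := by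
        rw [sum_sub_distrib, sum_const, card_univ, Fintype.card_fin, nsmul_eq_mul]
      rw [h2]
      calc |∑ i, ((v i : ℝ) - c)| ≤ ∑ i, |(v i : ℝ) - c| := abs_sum_le_sum_abs _ _
        _ ≤ ∑ _i : Fin h, r := sum_le_sum fun i _ => hS _ (hv i)
        _ = h * r := by rw [sum_const, card_univ, Fintype.card_fin, nsmul_eq_mul]
  have h2 : (tup S h).card ≤ T.card * (h ^ h * R) := by
    rw [card_eq_sum_card_fiberwise h1]
    calc ∑ m ∈ T, ((tup S h).filter fun v => ∑ i, v i = m).card ≤ ∑ _m ∈ T, h ^ h * R := by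
          refine sum_le_sum fun m hm => ?_
          rw [hT, mem_filter, mem_range, Nat.lt_succ_iff] at hm
          exact (RF_le hSA h m).trans (Nat.mul_le_mul_left _ (hR m hm.1))
      _ = T.card * (h ^ h * R) := by rw [sum_const, smul_eq_mul]
  have h3 : (tup S h).card = S.card ^ h := by
    unfold tup
    rw [Fintype.card_piFinset_const]
  rw [h3] at h2
  have h4 : (S.card : ℝ) ^ h ≤ T.card * (h ^ h * R) := by exact_mod_cast h2
  have h5 : (T.card : ℝ) ≤ 2 * (h * r) + 1 :=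
    card_near T (h * c) (h * r) (by positivity) fun m hm => (mem_filter.1 hm).2
  calc (S.card : ℝ) ^ h ≤ T.card * (h ^ h * R) := h4
    _ ≤ (2 * (h * r) + 1) * (h ^ h * R) := mul_le_mul_of_nonneg_right h5 (by positivity)
    _ = _ := by ring

/-- the constant -/
noncomputable def K (h : ℕ) : ℝ := 5 * (h : ℝ) ^ (h + 1)

lemma K_pos {h : ℕ} (hh : 1 ≤ h) : 0 < K h := by
  unfold K
  have : (0 : ℝ) < h := by exact_mod_cast hh
  positivity

/-- the bound for the number of elements in an interval of length about `L` -/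
noncomputable def X (h R : ℕ) (L : ℝ) : ℝ := (K h * R * L) ^ (1 / (h : ℝ))

lemma X_nonneg (h R : ℕ) {L : ℝ} (hL : 0 ≤ L) : 0 ≤ X h R L := by
  unfold X K
  positivity

lemma X_pow {h : ℕ} (hh : 1 ≤ h) (R : ℕ) {L : ℝ} (hL : 0 ≤ L) : X h R L ^ h = K h * R * L := by
  unfold X
  rw [one_div, Real.rpow_inv_natCast_pow (by unfold K; positivity) (by omega)]

lemma le_X {h : ℕ} (hh : 1 ≤ h) (R : ℕ) {L x : ℝ} (hL : 0 ≤ L) (hx : x ^ h ≤ K h * R * L) :
    x ≤ X h R L := by
  rw [← X_pow hh R hL] at hx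
  exact le_of_pow_le_pow_left₀ (by omega) (X_nonneg h R hL) hx

lemma win_le {A : Set ℕ} {h N R L : ℕ} (hh : 1 ≤ h) (hL : 1 ≤ L)
    (hR : ∀ m ≤ h * (2 * N), rep A h m ≤ R) (c : ℝ) : ((win A N c L).card : ℝ) ≤ X h R L := by
  refine le_X hh R (Nat.cast_nonneg _) ?_
  refine (short A h (2 * N) R hR _ (fun a ha => (mem_win.1 ha).2.1) (fun a ha => (mem_win.1 ha).1)
    c (2 * L) (by positivity) fun a ha => (mem_win.1 ha).2.2).trans ?_
  unfold K
  have h1 : (1 : ℝ) ≤ L := by exact_mod_cast hL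
  have h2 : (1 : ℝ) ≤ h := by exact_mod_cast hh
  have h3 : 2 * ((h : ℝ) * (2 * L)) + 1 ≤ 5 * (h * L) := by nlinarith
  calc (h : ℝ) ^ h * R * (2 * (h * (2 * L)) + 1) ≤ (h : ℝ) ^ h * R * (5 * (h * L)) :=
        mul_le_mul_of_nonneg_left h3 (by positivity)
    _ = 5 * (h : ℝ) ^ (h + 1) * R * L := by rw [pow_succ]; ring

/-- the elements of `A` up to `2N` -/
noncomputable def elts (A : Set ℕ) (N : ℕ) : Finset ℕ := by
  classical exact (range (2 * N + 1)).filter fun a : ℕ => a ∈ A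

lemma elts_le {A : Set ℕ} {h N R : ℕ} (hh : 1 ≤ h) (hN : 1 ≤ N)
    (hR : ∀ m ≤ h * (2 * N), rep A h m ≤ R) : ((elts A N).card : ℝ) ≤ X h R N := by
  refine le_X hh R (Nat.cast_nonneg _) ?_
  have h0 : ∀ a ∈ elts A N, a ∈ A ∧ a ≤ 2 * N := by
    classical
    intro a ha
    unfold elts at ha
    rw [mem_filter, mem_range, Nat.lt_succ_iff] at ha
    exact ⟨ha.2, ha.1⟩
  refine (short A h (2 * N) R hR _ (fun a ha => (h0 a ha).1) (fun a ha => (h0 a ha).2)
    N N (by positivity) fun a ha => ?_).trans ?_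
  · have h1 : (a : ℝ) ≤ 2 * N := by exact_mod_cast (h0 a ha).2
    have h2 : (0 : ℝ) ≤ a := Nat.cast_nonneg _
    rw [abs_le]
    constructor <;> linarith
  · unfold K
    have h1 : (1 : ℝ) ≤ N := by exact_mod_cast hN
    have h2 : (1 : ℝ) ≤ h := by exact_mod_cast hh
    have h3 : 2 * ((h : ℝ) * N) + 1 ≤ 5 * (h * N) := by nlinarith
    calc (h : ℝ) ^ h * R * (2 * (h * N) + 1) ≤ (h : ℝ) ^ h * R * (5 * (h * N)) :=
          mul_le_mul_of_nonneg_left h3 (by positivity)
      _ = 5 * (h : ℝ) ^ (h + 1) * R * N := by rw [pow_succ]; ring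

/-- the number of windows containing a given element -/
lemma num_win (A : Set ℕ) (N L J : ℕ) (hL : 1 ≤ L) (z : ℝ) (hz : 0 < z) (a : ℕ) :
    (((range J).filter fun j : ℕ => a ∈ win A N (z * (N + j * L)) L).card : ℝ) ≤ 4 / z + 1 := by
  have hL0 : (0 : ℝ) < L := by exact_mod_cast hL
  have := card_near ((range J).filter fun j : ℕ => a ∈ win A N (z * (N + j * L)) L)
    ((a - z * N) / (z * L)) (2 / z) (by positivity) (by
      intro j hj
      have h1 := (mem_win.1 (mem_filter.1 hj).2).2.2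
      have h2 : (j : ℝ) - (a - z * N) / (z * L) = -((a : ℝ) - z * (N + j * L)) / (z * L) := by
        field_simp
        ring
      rw [h2, abs_div, abs_neg, abs_of_pos (by positivity : 0 < z * L), div_le_div_iff₀
        (by positivity) hz]
      nlinarith)
  refine this.trans (le_of_eq ?_)
  ring

lemma sum_win (A : Set ℕ) (N L J : ℕ) (hL : 1 ≤ L) (z : ℝ) (hz : 0 < z) :
    (∑ j ∈ range J, ((win A N (z * (N + j * L)) L).card : ℝ)) ≤
      (4 / z + 1) * (elts A N).card := by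
  classical
  have h1 : ∀ j : ℕ, ((win A N (z * (N + j * L)) L).card : ℝ) =
      ∑ a ∈ elts A N, if a ∈ win A N (z * (N + j * L)) L then (1 : ℝ) else 0 := by
    intro j
    rw [← sum_filter, sum_const, nsmul_eq_mul, mul_one]
    congr 2
    ext a
    rw [mem_filter]
    constructor
    · intro ha
      refine ⟨?_, ha⟩
      unfold elts
      rw [mem_win] at ha
      rw [mem_filter, mem_range, Nat.lt_succ_iff]
      exact ⟨ha.1, ha.2.1⟩
    · exact fun ha => ha.2
  simp only [h1]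
  rw [sum_comm]
  calc _ ≤ ∑ _a ∈ elts A N, (4 / z + 1) := by
        refine sum_le_sum fun a _ => ?_
        rw [← sum_filter, sum_const, nsmul_eq_mul, mul_one]
        exact num_win A N L J hL z hz a
    _ = _ := by rw [sum_const, nsmul_eq_mul, mul_comm]

lemma sum_win_sq (A : Set ℕ) (N L J i : ℕ) (hL : 1 ≤ L) (z : ℝ) (hz : 0 < z)
    (hzL : 2 * (L : ℝ) < z * N) (hi : 4 * L < 2 ^ i) :
    (∑ j ∈ range J, ((win A N (z * (N + j * L)) L).card : ℝ) ^ 2) ≤
      (4 / z + 1) * close (seg A (2 * N)) i := by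
  classical
  set F := seg A (2 * N) with hF
  set Q := (F ×ˢ F).filter (fun p => (p.1 : ℤ) - p.2 ∈ Ioo (-(2 : ℤ) ^ i) (2 ^ i)) with hQ
  have h1 : ∀ j : ℕ, ((win A N (z * (N + j * L)) L).card : ℝ) ^ 2 ≤
      ∑ p ∈ Q, if p.1 ∈ win A N (z * (N + j * L)) L then (1 : ℝ) else 0 := by
    intro j
    rw [← sum_filter, sum_const, nsmul_eq_mul, mul_one, sq, ← Nat.cast_mul, ← card_product]
    refine Nat.cast_le.2 (card_le_card ?_)
    rintro ⟨a, b⟩ hab
    rw [mem_product] at hab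
    obtain ⟨ha, hb⟩ := hab
    have ha' := mem_win.1 ha
    have hb' := mem_win.1 hb
    rw [mem_filter, hQ, mem_filter, mem_product]
    have hpos : ∀ x, x ∈ win A N (z * (N + j * L)) L → x ∈ F := by
      intro x hx
      rw [mem_win] at hx
      rw [hF, mem_seg]
      refine ⟨⟨?_, hx.1⟩, hx.2.1⟩
      by_contra hcon
      have h0 : x = 0 := by omega
      have h2 := (abs_le.1 hx.2.2).1
      rw [h0] at h2
      have h3 : 0 ≤ z * (j * L) := by positivity
      push_cast at h2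
      nlinarith
    refine ⟨⟨⟨hpos a ha, hpos b hb⟩, ?_⟩, ha⟩
    have h3 : |(a : ℝ) - b| ≤ 4 * L := by
      have h4 := abs_le.1 ha'.2.2
      have h5 := abs_le.1 hb'.2.2
      rw [abs_le]
      constructor <;> linarith
    have h4 : |((a : ℤ) - b : ℤ)| ≤ 4 * L := by
      have : ((|((a : ℤ) - b : ℤ)| : ℤ) : ℝ) ≤ ((4 * L : ℤ) : ℝ) := by
        push_cast
        exact h3
      exact_mod_cast this
    have h5 : (4 * L : ℤ) < 2 ^ i := by exact_mod_cast hi
    rw [mem_Ioo, ← abs_lt]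
    exact lt_of_le_of_lt h4 h5
  refine (sum_le_sum fun j _ => h1 j).trans ?_
  rw [sum_comm, close_eq]
  calc _ ≤ ∑ _p ∈ Q, (4 / z + 1) := by
        refine sum_le_sum fun p _ => ?_
        rw [← sum_filter, sum_const, nsmul_eq_mul, mul_one]
        exact num_win A N L J hL z hz p.1
    _ = _ := by rw [sum_const, nsmul_eq_mul, mul_comm]

/-- **the basic inequality** -/
theorem basic {A : Set ℕ} {h N R L : ℕ} (hh : 2 ≤ h) (hL : 1 ≤ L) (hLN : L ≤ N)
    (hR : ∀ m ≤ h * (2 * N), rep A h m ≤ R) (z : Fin h → ℝ) (hz : z ∈ stdSimplex ℝ (Fin h)) :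
    ((good A h z N L).ncard : ℝ) ≤ (4 * h + 1) * (X h R L ^ (h - 1) * X h R N) := by
  classical
  obtain ⟨hz0, hzs⟩ := hz
  have hz1 : ∀ i, z i ≤ 1 := fun i => hzs ▸ single_le_sum (fun i _ => hz0 i) (mem_univ i)
  have hh0 : (0 : ℝ) < h := by exact_mod_cast (by omega : 0 < h)
  obtain ⟨i₀, hi₀⟩ : ∃ i, 1 / (h : ℝ) ≤ z i := by
    by_contra hcon
    push Not at hcon
    have h1 : ∑ i, z i < ∑ _i : Fin h, 1 / (h : ℝ) :=
      sum_lt_sum_of_nonempty ⟨⟨0, by omega⟩, mem_univ _⟩ fun i _ => hcon i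
    rw [hzs, sum_const, card_univ, Fintype.card_fin, nsmul_eq_mul, mul_one_div_cancel hh0.ne'] at h1
    exact lt_irrefl _ h1
  have hX0 : 0 ≤ X h R L := X_nonneg h R (Nat.cast_nonneg _)
  have h1 : ((good A h z N L).ncard : ℝ) ≤
      ∑ j ∈ range (N / L + 1), ∏ i, ((win A N (z i * (N + j * L)) L).card : ℝ) := by
    exact_mod_cast good_card A h z hz0 hz1 N L hL
  have h2 : ∀ j : ℕ, ∏ i, ((win A N (z i * (N + j * L)) L).card : ℝ) ≤
      X h R L ^ (h - 1) * (win A N (z i₀ * (N + j * L)) L).card := by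
    intro j
    rw [← mul_prod_erase univ _ (mem_univ i₀), mul_comm]
    refine mul_le_mul_of_nonneg_right ?_ (Nat.cast_nonneg _)
    have h3 : ∏ i ∈ univ.erase i₀, ((win A N (z i * (N + j * L)) L).card : ℝ) ≤
        ∏ _i ∈ univ.erase i₀, X h R L :=
      prod_le_prod (fun _ _ => Nat.cast_nonneg _) fun i _ => win_le (by omega) hL hR _
    rwa [prod_const, card_erase_of_mem (mem_univ _), card_univ, Fintype.card_fin] at h3
  refine h1.trans ((sum_le_sum fun j _ => h2 j).trans ?_)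
  rw [← mul_sum]
  have hzi : 0 < z i₀ := lt_of_lt_of_le (by positivity) hi₀
  have h3 := sum_win A N L (N / L + 1) hL (z i₀) hzi
  have h4 : 4 / z i₀ + 1 ≤ 4 * h + 1 := by
    have : 4 / z i₀ ≤ 4 * h := by
      rw [div_le_iff₀ hzi]
      rw [div_le_iff₀ hh0] at hi₀
      nlinarith
    linarith
  have h5 := elts_le (A := A) (h := h) (N := N) (R := R) (by omega) (by omega) hR
  calc X h R L ^ (h - 1) * ∑ j ∈ range (N / L + 1), ((win A N (z i₀ * (N + j * L)) L).card : ℝ)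
      ≤ X h R L ^ (h - 1) * ((4 * h + 1) * X h R N) := by
        refine mul_le_mul_of_nonneg_left (h3.trans ?_) (by positivity)
        exact mul_le_mul h4 h5 (Nat.cast_nonneg _) (by positivity)
    _ = _ := by ring

/-- **the critical inequality** -/
theorem crit {A : Set ℕ} {h N R L i : ℕ} (hh : 2 ≤ h) (hL : 1 ≤ L) {κ : ℝ} (hκ : 0 < κ)
    (hκN : 2 * (L : ℝ) < κ * N) (hi : 4 * L < 2 ^ i)
    (hR : ∀ m ≤ h * (2 * N), rep A h m ≤ R) (z : Fin h → ℝ) (hz : z ∈ stdSimplex ℝ (Fin h))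
    (i₁ i₂ : Fin h) (hne : i₁ ≠ i₂) (h₁ : κ ≤ z i₁) (h₂ : κ ≤ z i₂) :
    ((good A h z N L).ncard : ℝ) ≤
      X h R L ^ (h - 2) * ((4 / κ + 1) * close (seg A (2 * N)) i) := by
  classical
  obtain ⟨hz0, hzs⟩ := hz
  have hz1 : ∀ i, z i ≤ 1 := fun i => hzs ▸ single_le_sum (fun i _ => hz0 i) (mem_univ i)
  have hX0 : 0 ≤ X h R L := X_nonneg h R (Nat.cast_nonneg _)
  have h1 : ((good A h z N L).ncard : ℝ) ≤
      ∑ j ∈ range (N / L + 1), ∏ i, ((win A N (z i * (N + j * L)) L).card : ℝ) := by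
    exact_mod_cast good_card A h z hz0 hz1 N L hL
  have h2 : ∀ j : ℕ, ∏ i, ((win A N (z i * (N + j * L)) L).card : ℝ) ≤
      X h R L ^ (h - 2) * ((((win A N (z i₁ * (N + j * L)) L).card : ℝ) ^ 2 +
        ((win A N (z i₂ * (N + j * L)) L).card : ℝ) ^ 2) / 2) := by
    intro j
    rw [← mul_prod_erase univ _ (mem_univ i₁),
      ← mul_prod_erase (univ.erase i₁) _ (mem_erase.2 ⟨hne.symm, mem_univ i₂⟩), ← mul_assoc,
      mul_comm]
    have h3 : ∏ i ∈ (univ.erase i₁).erase i₂, ((win A N (z i * (N + j * L)) L).card : ℝ) ≤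
        ∏ _i ∈ (univ.erase i₁).erase i₂, X h R L :=
      prod_le_prod (fun _ _ => Nat.cast_nonneg _) fun i _ => win_le (by omega) hL hR _
    rw [prod_const, card_erase_of_mem (mem_erase.2 ⟨hne.symm, mem_univ i₂⟩),
      card_erase_of_mem (mem_univ _), card_univ, Fintype.card_fin, Nat.sub_sub] at h3
    refine mul_le_mul h3 ?_ (by positivity) (by positivity)
    nlinarith [sq_nonneg (((win A N (z i₁ * (N + j * L)) L).card : ℝ) -
      ((win A N (z i₂ * (N + j * L)) L).card : ℝ))]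
  refine h1.trans ((sum_le_sum fun j _ => h2 j).trans ?_)
  rw [← mul_sum]
  refine mul_le_mul_of_nonneg_left ?_ (by positivity)
  have key : ∀ k : Fin h, κ ≤ z k →
      ∑ j ∈ range (N / L + 1), ((win A N (z k * (N + j * L)) L).card : ℝ) ^ 2 ≤
        (4 / κ + 1) * close (seg A (2 * N)) i := by
    intro k hk
    have hzk : 0 < z k := lt_of_lt_of_le hκ hk
    refine (sum_win_sq A N L (N / L + 1) i hL (z k) hzk ?_ hi).trans ?_
    · refine lt_of_lt_of_le hκN (mul_le_mul_of_nonneg_right hk (Nat.cast_nonneg _))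
    · refine mul_le_mul_of_nonneg_right ?_ (close_nonneg _ _)
      have : 4 / z k ≤ 4 / κ := div_le_div_of_nonneg_left (by norm_num) hκ hk
      linarith
  have k1 := key i₁ h₁
  have k2 := key i₂ h₂
  rw [← sum_div, sum_add_distrib]
  linarith

end Pool.Agent.N714.Shape
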