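import Mathlib

/-!
Finite coverings of compact sets of finite Hausdorff measure by dyadic balls.
-/

set_option autoImplicit false

namespace Pool.Agent.N714.Shape

open Finset MeasureTheory Metric Filter Topology
open scoped ENNReal

/-- choice of a dyadic radius -/
lemma dyadic (D η s : ℝ) (hD : 0 ≤ D) (hη : 0 < η) (hs : 0 < s) (hs1 : s ≤ 1) (b₀ : ℕ)
    (hDb : D < (1 / 2 : ℝ) ^ b₀) :
    ∃ b, b₀ ≤ b ∧ D < (1 / 2 : ℝ) ^ b ∧ (((1 : ℝ) / 2) ^ b) ^ s ≤ 2 * D ^ s + η := by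
  classical
  have hex : ∃ b, b₀ ≤ b ∧ (¬ (D < (1 / 2 : ℝ) ^ (b + 1)) ∨ (((1 : ℝ) / 2) ^ b) ^ s ≤ η) := by
    have h1 : Tendsto (fun b : ℕ => (((1 : ℝ) / 2) ^ b) ^ s) atTop (𝓝 0) := by
      have h2 : Tendsto (fun b : ℕ => ((1 : ℝ) / 2) ^ b) atTop (𝓝 0) :=
        tendsto_pow_atTop_nhds_zero_of_lt_one (by norm_num) (by norm_num)
      have h3 := h2.rpow_const (p := s) (Or.inr hs.le)
      rwa [Real.zero_rpow hs.ne'] at h3
    obtain ⟨b, hb1, hb2⟩ := ((h1.eventually (gt_mem_nhds hη)).and (eventually_ge_atTop b₀)).exists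
    exact ⟨b, hb2, Or.inr hb1.le⟩
  obtain ⟨b, hspec, hmin⟩ : ∃ b, (b₀ ≤ b ∧ (¬ (D < (1 / 2 : ℝ) ^ (b + 1)) ∨
      (((1 : ℝ) / 2) ^ b) ^ s ≤ η)) ∧ ∀ m < b, ¬ (b₀ ≤ m ∧ (¬ (D < (1 / 2 : ℝ) ^ (m + 1)) ∨
      (((1 : ℝ) / 2) ^ m) ^ s ≤ η)) := ⟨Nat.find hex, Nat.find_spec hex, fun m hm => Nat.find_min hex hm⟩
  refine ⟨b, hspec.1, ?_, ?_⟩
  · rcases Nat.eq_or_lt_of_le hspec.1 with h | h
    · rw [← h]; exact hDb
    · have h2 := hmin (b - 1) (by omega)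
      push Not at h2
      have h3 := (h2 (by omega)).1
      rwa [Nat.sub_add_cancel (by omega)] at h3
  · rcases hspec.2 with h | h
    · push Not at h
      have h2 : ((1 : ℝ) / 2) ^ b ≤ 2 * D := by
        rw [pow_succ] at h
        linarith
      have h3 : (((1 : ℝ) / 2) ^ b) ^ s ≤ (2 * D) ^ s := Real.rpow_le_rpow (by positivity) h2 hs.le
      rw [Real.mul_rpow (by norm_num) hD] at h3
      have h4 : (2 : ℝ) ^ s ≤ 2 := by
        calc (2 : ℝ) ^ s ≤ (2 : ℝ) ^ (1 : ℝ) := Real.rpow_le_rpow_of_exponent_le (by norm_num) hs1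
          _ = 2 := Real.rpow_one 2
      have h5 : 0 ≤ D ^ s := Real.rpow_nonneg hD s
      nlinarith
    · have h5 : 0 ≤ D ^ s := Real.rpow_nonneg hD s
      linarith

/-- coverings at small scales -/
theorem cover_exists {E : Type*} [MetricSpace E] [MeasurableSpace E] [BorelSpace E] [Nonempty E]
    (Z : Set E) (hZ : IsCompact Z) (s : ℝ) (hs : 0 < s) (hs1 : s ≤ 1)
    (hH : Measure.hausdorffMeasure s Z ≠ ∞) :
    ∃ V : ℝ, ∀ b₀ : ℕ, ∃ (I : Finset ℕ) (c : ℕ → E) (b : ℕ → ℕ), (∀ k ∈ I, c k ∈ Z ∧ b₀ ≤ b k) ∧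
      (Z ⊆ ⋃ k ∈ I, ball (c k) ((1 / 2 : ℝ) ^ b k)) ∧
      ∑ k ∈ I, (((1 : ℝ) / 2) ^ b k) ^ s ≤ V := by
  classical
  rcases Z.eq_empty_or_nonempty with rfl | ⟨z₀, hz₀⟩
  · obtain ⟨x⟩ := (inferInstance : Nonempty E)
    exact ⟨0, fun b₀ => ⟨∅, fun _ => x, fun _ => 0, by simp, by simp, by simp⟩⟩
  set H := (Measure.hausdorffMeasure s Z) + 1 with hHdef
  have hHfin : H ≠ ∞ := ENNReal.add_ne_top.2 ⟨hH, ENNReal.one_ne_top⟩
  refine ⟨2 * H.toReal + 2, fun b₀ => ?_⟩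
  have h1 := Measure.hausdorffMeasure_apply s Z
  have hr : (0 : ℝ≥0∞) < ENNReal.ofReal ((1 / 2 : ℝ) ^ (b₀ + 1)) := by
    rw [ENNReal.ofReal_pos]; positivity
  have h2 : (⨅ (t : ℕ → Set E) (_ : Z ⊆ ⋃ n, t n)
      (_ : ∀ n, Metric.ediam (t n) ≤ ENNReal.ofReal ((1 / 2 : ℝ) ^ (b₀ + 1))),
      ∑' n, ⨆ _ : (t n).Nonempty, Metric.ediam (t n) ^ s) < H := by
    refine lt_of_le_of_lt ?_ (ENNReal.lt_add_right hH one_ne_zero)
    rw [h1]
    exact le_iSup₂_of_le (f := fun (r : ℝ≥0∞) (_ : 0 < r) => ⨅ (t : ℕ → Set E)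
      (_ : Z ⊆ ⋃ n, t n) (_ : ∀ n, Metric.ediam (t n) ≤ r),
      ∑' n, ⨆ _ : (t n).Nonempty, Metric.ediam (t n) ^ s) _ hr le_rfl
  simp only [iInf_lt_iff] at h2
  obtain ⟨t, htZ, htd, hts⟩ := h2
  -- the diameters
  have hfin : ∀ k, Metric.ediam (t k) ≠ ∞ := fun k =>
    ne_top_of_le_ne_top ENNReal.ofReal_ne_top (htd k)
  set D : ℕ → ℝ := fun k => (Metric.ediam (t k)).toReal with hD
  have hD0 : ∀ k, 0 ≤ D k := fun k => ENNReal.toReal_nonneg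
  have hDlt : ∀ k, D k < (1 / 2 : ℝ) ^ b₀ := by
    intro k
    have e1 : D k ≤ (1 / 2 : ℝ) ^ (b₀ + 1) := by
      have := ENNReal.toReal_mono ENNReal.ofReal_ne_top (htd k)
      rwa [ENNReal.toReal_ofReal (by positivity)] at this
    have e2 : (0 : ℝ) < (1 / 2) ^ b₀ := by positivity
    rw [pow_succ] at e1
    linarith
  choose b hb1 hb2 hb3 using fun k => dyadic (D k) ((1 / 2 : ℝ) ^ k) s (hD0 k) (by positivity) hs
    hs1 b₀ (hDlt k)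
  set c : ℕ → E := fun k => if h : (t k ∩ Z).Nonempty then h.some else z₀ with hc
  have hcZ : ∀ k, c k ∈ Z := by
    intro k
    rw [hc]
    simp only
    split_ifs with h
    · exact h.some_mem.2
    · exact hz₀
  have hcov : Z ⊆ ⋃ k, ball (c k) ((1 / 2 : ℝ) ^ b k) := by
    intro z hz
    obtain ⟨k, hk⟩ := Set.mem_iUnion.1 (htZ hz)
    refine Set.mem_iUnion.2 ⟨k, ?_⟩
    have hne : (t k ∩ Z).Nonempty := ⟨z, hk, hz⟩
    have hck : c k ∈ t k := by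
      rw [hc]
      simp only [dif_pos hne]
      exact hne.some_mem.1
    rw [mem_ball]
    refine lt_of_le_of_lt ?_ (hb2 k)
    rw [dist_edist]
    exact ENNReal.toReal_mono (hfin k) (Metric.edist_le_ediam_of_mem hk hck)
  obtain ⟨I, hI⟩ := hZ.elim_finite_subcover _ (fun k => isOpen_ball) hcov
  refine ⟨I, c, b, fun k _ => ⟨hcZ k, hb1 k⟩, hI, ?_⟩
  have h3 : ∑ k ∈ I, D k ^ s ≤ H.toReal := by
    have e1 : ∀ k, Metric.ediam (t k) ^ s ≤ ⨆ _ : (t k).Nonempty, Metric.ediam (t k) ^ s := by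
      intro k
      rcases (t k).eq_empty_or_nonempty with h | h
      · rw [h, Metric.ediam_empty, ENNReal.zero_rpow_of_pos hs]
        exact bot_le
      · exact le_iSup_of_le h le_rfl
    have e2 : ∑ k ∈ I, Metric.ediam (t k) ^ s ≤ H := by
      calc ∑ k ∈ I, Metric.ediam (t k) ^ s ≤
          ∑ k ∈ I, ⨆ _ : (t k).Nonempty, Metric.ediam (t k) ^ s := sum_le_sum fun k _ => e1 k
        _ ≤ ∑' k, ⨆ _ : (t k).Nonempty, Metric.ediam (t k) ^ s := ENNReal.sum_le_tsum I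
        _ ≤ H := hts.le
    have e3 := ENNReal.toReal_mono hHfin e2
    rw [ENNReal.toReal_sum (fun k _ => ENNReal.rpow_ne_top_of_nonneg hs.le (hfin k))] at e3
    simpa only [← ENNReal.toReal_rpow] using e3
  have h4 : ∑ k ∈ I, ((1 : ℝ) / 2) ^ k ≤ 2 := by
    have := (summable_geometric_two).sum_le_tsum I (fun _ _ => by positivity)
    rwa [tsum_geometric_two] at this
  calc ∑ k ∈ I, (((1 : ℝ) / 2) ^ b k) ^ s ≤ ∑ k ∈ I, (2 * D k ^ s + (1 / 2 : ℝ) ^ k) :=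
        sum_le_sum fun k _ => hb3 k
    _ = 2 * ∑ k ∈ I, D k ^ s + ∑ k ∈ I, (1 / 2 : ℝ) ^ k := by rw [sum_add_distrib, mul_sum]
    _ ≤ _ := by linarith

end Pool.Agent.N714.Shape
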