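import Pool.Agent.N714.Shape.Count
import Pool.Agent.N714.Shape.Cover

/-!
Shapes in a compact set of finite Hausdorff measure of dimension `1 - 1 / h`.
-/

set_option autoImplicit false

namespace Pool.Agent.N714.Shape

open Finset MeasureTheory Filter Topology
open scoped ENNReal
open Pool.Agent.TH314.ETH (tup RF RF_le rep)
open Pool.Agent.TH314.ET (seg mem_seg seg_sub)

/-- coverings at many separated scales -/
theorem groups {E : Type*} [MetricSpace E] [MeasurableSpace E] [BorelSpace E] [Nonempty E]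
    (Z : Set E) (hZ : IsCompact Z) (s : ℝ) (hs : 0 < s) (hs1 : s ≤ 1)
    (hH : Measure.hausdorffMeasure s Z ≠ ∞) :
    ∃ V : ℝ, ∀ b₀ M : ℕ, ∃ (I : ℕ → Finset ℕ) (c : ℕ → ℕ → E) (b : ℕ → ℕ → ℕ) (B : ℕ),
      (∀ m < M, ∀ k ∈ I m, c m k ∈ Z ∧ b₀ ≤ b m k ∧ b m k ≤ B) ∧
      (∀ m < M, Z ⊆ ⋃ k ∈ I m, Metric.ball (c m k) ((1 / 2 : ℝ) ^ b m k)) ∧
      (∀ m < M, ∑ k ∈ I m, (((1 : ℝ) / 2) ^ b m k) ^ s ≤ V) ∧
      ∀ m m', m < m' → ∀ k ∈ I m, ∀ k' ∈ I m', b m k < b m' k' := by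
  obtain ⟨V, hV⟩ := cover_exists Z hZ s hs hs1 hH
  choose I c b hI hcov hsum using hV
  refine ⟨V, fun b₀ M => ?_⟩
  set start : ℕ → ℕ := fun m => Nat.rec b₀ (fun _ x => max x ((I x).sup (b x)) + 1) m with hst
  have h0 : start 0 = b₀ := rfl
  have h1 : ∀ m, start (m + 1) = max (start m) ((I (start m)).sup (b (start m))) + 1 :=
    fun m => rfl
  have hmono : StrictMono start := strictMono_nat_of_lt_succ fun m => by rw [h1]; omega
  have hlt : ∀ m, ∀ k ∈ I (start m), b (start m) k < start (m + 1) := by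
    intro m k hk
    have h2 : b (start m) k ≤ (I (start m)).sup (b (start m)) := Finset.le_sup hk
    rw [h1]
    omega
  refine ⟨fun m => I (start m), fun m => c (start m), fun m => b (start m), start M, ?_, ?_, ?_, ?_⟩
  · intro m hm k hk
    have h2 := hI (start m) k hk
    have h3 := hlt m k hk
    have h4 : start 0 ≤ start m := hmono.monotone (Nat.zero_le _)
    have h5 : start (m + 1) ≤ start M := hmono.monotone hm
    exact ⟨h2.1, h4.trans h2.2, (h3.le).trans h5⟩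
  · exact fun m _ => hcov (start m)
  · exact fun m _ => hsum (start m)
  · intro m m' hm k hk k' hk'
    have h2 := hlt m k hk
    have h3 := (hI (start m') k' hk').2
    have h5 : start (m + 1) ≤ start m' := hmono.monotone hm
    show b (start m) k < b (start m') k'
    omega

/-- pigeonhole for the scales -/
lemma pigeon (f : ℕ → ℝ) (hf : ∀ i, 0 ≤ f i) (J M : ℕ) (hM : 0 < M) (S : ℝ)
    (hS : ∑ i ∈ range J, f i ≤ S) (G : ℕ → Finset ℕ) (hG : ∀ m < M, ∀ i ∈ G m, i < J)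
    (hdis : ∀ m < M, ∀ m' < M, m ≠ m' → Disjoint (G m) (G m')) :
    ∃ m < M, ∀ i ∈ G m, f i ≤ S / M := by
  classical
  by_contra hcon
  push Not at hcon
  choose! i hi hfi using hcon
  have hinj : Set.InjOn i (range M : Set ℕ) := by
    intro m hm m' hm' he
    rw [coe_range, Set.mem_Iio] at hm hm'
    by_contra hne
    exact (Finset.disjoint_left.1 (hdis m hm m' hm' hne)) (hi m hm) (he ▸ hi m' hm')
  have h1 : ∑ m ∈ range M, f (i m) ≤ S := by
    rw [← sum_image hinj]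
    refine (sum_le_sum_of_subset_of_nonneg ?_ fun j _ _ => hf j).trans hS
    intro j hj
    obtain ⟨m, hm, rfl⟩ := mem_image.1 hj
    exact mem_range.2 (hG m (mem_range.1 hm) _ (hi m (mem_range.1 hm)))
  have h2 : ∑ _m ∈ range M, S / (M : ℝ) < ∑ m ∈ range M, f (i m) :=
    sum_lt_sum_of_nonempty ⟨0, mem_range.2 hM⟩ fun m hm => hfi m (mem_range.1 hm)
  rw [sum_const, card_range, nsmul_eq_mul, mul_div_cancel₀] at h2
  · linarith
  · exact_mod_cast hM.ne'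

lemma pairs' (h : ℕ) (hh : 2 ≤ h) (F : Finset ℕ) (N : ℕ) (hN : 1 ≤ N) (hF : F ⊆ Icc 1 N) (R : ℕ)
    (hR : ∀ n, RF F h n ≤ R) :
    ∑ i ∈ range (Nat.log 2 N + 1), close F i ^ h / (2 : ℝ) ^ i ≤
      16 * 6 ^ h * (h + 4) * (R * (F.card : ℝ) ^ h) := by
  obtain ⟨p, rfl⟩ : ∃ p, h = p + 1 := ⟨h - 1, by omega⟩
  refine (pairs p (by omega) F N hN hF R hR).trans (le_of_eq ?_)
  push_cast
  ring

/-- the integers in `(N, 2N]` with a representation whose shape is near `Z` -/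
def goodZ (A : Set ℕ) (h : ℕ) (Z : Set (Fin h → ℝ)) (e : ℕ → ℝ) (N : ℕ) : Set ℕ :=
  {n | N < n ∧ n ≤ 2 * N ∧ ∃ a : Fin h → ℕ, (∀ i, a i ∈ A) ∧ ∑ i, a i = n ∧
    ∃ z ∈ Z, ∀ i, |(a i : ℝ) - z i * n| ≤ e n * n}

lemma goodZ_finite (A : Set ℕ) (h : ℕ) (Z : Set (Fin h → ℝ)) (e : ℕ → ℝ) (N : ℕ) :
    (goodZ A h Z e N).Finite := (Set.finite_Iic (2 * N)).subset fun _ hn => hn.2.1

lemma good_finite (A : Set ℕ) (h : ℕ) (z : Fin h → ℝ) (N : ℕ) (L : ℝ) :
    (good A h z N L).Finite := (Set.finite_Iic (2 * N)).subset fun _ hn => hn.2.1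

/-- the count for one shape at one scale -/
lemma one_shape {A : Set ℕ} {h R N J b : ℕ} (hh : 2 ≤ h) (hR : ∀ m, rep A h m ≤ R) (hN0 : 1 ≤ N)
    (hJN : 2 ^ J ≤ N) (hbJ : b ≤ J) {κ : ℝ} (hκ : 0 < κ) (hb : 16 * (1 / 2 : ℝ) ^ b < κ)
    (z : Fin h → ℝ) (hz : z ∈ stdSimplex ℝ (Fin h)) (i₁ i₂ : Fin h) (hne : i₁ ≠ i₂)
    (h₁ : κ ≤ z i₁) (h₂ : κ ≤ z i₂) (δ : ℝ) (hδ : 0 ≤ δ)
    (hcl : close (seg A (2 * N)) (J + 6 - b) ^ h ≤ δ * N * (2 : ℝ) ^ (J + 6 - b)) :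
    ((good A h z N ((2 ^ (J + 3 - b) : ℕ) : ℝ)).ncard : ℝ) ≤
      N * (((K h * R) ^ (h - 2) * (4 / κ + 1) ^ h * 8 * 8 ^ (h - 1)) * δ) ^ (1 / (h : ℝ)) *
        (((1 : ℝ) / 2) ^ b) ^ (1 - 1 / (h : ℝ)) := by
  have hh0 : (0 : ℝ) < h := by exact_mod_cast (by omega : 0 < h)
  have hK0 : 0 < K h := K_pos (by omega)
  set L : ℕ := 2 ^ (J + 3 - b) with hL
  have hL1 : 1 ≤ L := Nat.one_le_two_pow
  have hL0 : (0 : ℝ) < L := by exact_mod_cast hL1
  have hNpos : (0 : ℝ) < N := by exact_mod_cast hN0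
  have hbpos : (0 : ℝ) < (1 / 2) ^ b := by positivity
  have hLN : (L : ℝ) ≤ 8 * N * (1 / 2 : ℝ) ^ b := by
    have h7 : (L : ℝ) = 8 * 2 ^ J * (1 / 2 : ℝ) ^ b := by
      rw [hL]
      push_cast
      have h8 : (2 : ℝ) ^ (J + 3) = 2 ^ (J + 3 - b) * 2 ^ b := by
        rw [← pow_add]; congr 1; omega
      have h9 : (8 : ℝ) * 2 ^ J = 2 ^ (J + 3) := by rw [pow_add]; ring
      rw [h9, h8, mul_assoc, ← mul_pow]
      norm_num
    rw [h7]
    have h8 : (2 : ℝ) ^ J ≤ N := by exact_mod_cast hJN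
    nlinarith
  have hκL : 2 * (L : ℝ) < κ * N := by nlinarith
  have hL8 : 4 * L < 2 ^ (J + 6 - b) := by
    rw [hL, show J + 6 - b = (J + 3 - b) + 3 by omega, pow_add]
    have : 0 < 2 ^ (J + 3 - b) := by positivity
    omega
  have h2 := crit (A := A) (N := N) (R := R) (L := L) (i := J + 6 - b) hh hL1 hκ hκL hL8
    (fun m _ => hR m) z hz i₁ i₂ hne h₁ h₂
  have h4 : (2 : ℝ) ^ (J + 6 - b) = 8 * L := by
    rw [hL, show J + 6 - b = (J + 3 - b) + 3 by omega, pow_add]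
    push_cast
    ring
  rw [h4] at hcl
  set x : ℝ := ((good A h z N (L : ℝ)).ncard : ℝ) with hx
  set F := seg A (2 * N) with hF
  have hx0 : 0 ≤ x := Nat.cast_nonneg _
  have hX0 : 0 ≤ X h R L := X_nonneg h R hL0.le
  have hcl0 : 0 ≤ close F (J + 6 - b) := close_nonneg _ _
  have h5 : x ^ h ≤ (K h * R * L) ^ (h - 2) * ((4 / κ + 1) ^ h * (δ * N * (8 * L))) := by
    calc x ^ h ≤ (X h R L ^ (h - 2) * ((4 / κ + 1) * close F (J + 6 - b))) ^ h :=
          pow_le_pow_left₀ hx0 h2 h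
      _ = (X h R L ^ h) ^ (h - 2) * ((4 / κ + 1) ^ h * close F (J + 6 - b) ^ h) := by
          rw [mul_pow, mul_pow, ← pow_mul, ← pow_mul, mul_comm (h - 2) h]
      _ ≤ _ := by
          rw [X_pow (by omega) R hL0.le]
          refine mul_le_mul_of_nonneg_left (mul_le_mul_of_nonneg_left hcl (by positivity))
            (by positivity)
  have h6 : (K h * R * L) ^ (h - 2) * ((4 / κ + 1) ^ h * (δ * N * (8 * L))) =
      (K h * R) ^ (h - 2) * (4 / κ + 1) ^ h * 8 * δ * N * (L : ℝ) ^ (h - 1) := by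
    have e1 : (L : ℝ) ^ (h - 1) = L ^ (h - 2) * L := by rw [← pow_succ]; congr 1; omega
    rw [e1, mul_pow]
    ring
  have h7 : (L : ℝ) ^ (h - 1) ≤ (8 * N * (1 / 2 : ℝ) ^ b) ^ (h - 1) :=
    pow_le_pow_left₀ hL0.le hLN _
  have hC : 0 ≤ (K h * R) ^ (h - 2) * (4 / κ + 1) ^ h * 8 * 8 ^ (h - 1) * δ := by positivity
  have e1 : ((((1 : ℝ) / 2) ^ b) ^ (1 - 1 / (h : ℝ))) ^ h = (((1 : ℝ) / 2) ^ b) ^ (h - 1) := by
    rw [← Real.rpow_natCast, ← Real.rpow_mul hbpos.le,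
      ← Real.rpow_natCast (((1 : ℝ) / 2) ^ b) (h - 1)]
    congr 1
    rw [Nat.cast_sub (by omega)]
    field_simp
    push_cast
    ring
  have h8 : x ^ h ≤ (N * (((K h * R) ^ (h - 2) * (4 / κ + 1) ^ h * 8 * 8 ^ (h - 1)) * δ) ^
      (1 / (h : ℝ)) * (((1 : ℝ) / 2) ^ b) ^ (1 - 1 / (h : ℝ))) ^ h := by
    rw [mul_pow, mul_pow, e1, one_div (h : ℝ), Real.rpow_inv_natCast_pow hC (by omega)]
    refine h5.trans ?_
    rw [h6]
    calc (K h * R) ^ (h - 2) * (4 / κ + 1) ^ h * 8 * δ * N * (L : ℝ) ^ (h - 1)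
        ≤ (K h * R) ^ (h - 2) * (4 / κ + 1) ^ h * 8 * δ * N *
            (8 * N * (1 / 2 : ℝ) ^ b) ^ (h - 1) := by
          refine mul_le_mul_of_nonneg_left h7 (by positivity)
      _ = _ := by
          have e2 : (N : ℝ) ^ h = N * N ^ (h - 1) := by rw [← pow_succ']; congr 1; omega
          rw [mul_pow, mul_pow, e2]
          ring
  exact le_of_pow_le_pow_left₀ (by omega) (by positivity) h8

/-- **shapes away from the vertices** -/
theorem away {A : Set ℕ} {h R : ℕ} (hh : 2 ≤ h) (hR : ∀ m, rep A h m ≤ R) (Z : Set (Fin h → ℝ))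
    (hZc : IsCompact Z) (hZ : Z ⊆ stdSimplex ℝ (Fin h)) {κ : ℝ} (hκ : 0 < κ)
    (hZκ : ∀ z ∈ Z, ∃ i₁ i₂, i₁ ≠ i₂ ∧ κ ≤ z i₁ ∧ κ ≤ z i₂)
    (hH : Measure.hausdorffMeasure (1 - 1 / (h : ℝ)) Z ≠ ∞) (e : ℕ → ℝ)
    (he : Tendsto e atTop (𝓝 0)) (ε : ℝ) (hε : 0 < ε) :
    ∀ᶠ N : ℕ in atTop, ((goodZ A h Z e N).ncard : ℝ) ≤ ε * N := by
  classical
  have hh1 : (1 : ℝ) < h := by exact_mod_cast hh
  have hh0 : (0 : ℝ) < h := by linarith
  have hinv : 1 / (h : ℝ) < 1 := by rw [div_lt_one hh0]; exact hh1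
  have hinv0 : 0 < 1 / (h : ℝ) := by positivity
  set s : ℝ := 1 - 1 / (h : ℝ) with hs
  have hs0 : 0 < s := by linarith
  have hs1 : s ≤ 1 := by linarith
  have : Nonempty (Fin h → ℝ) := ⟨fun _ => 0⟩
  obtain ⟨V, hV⟩ := groups Z hZc s hs0 hs1 hH
  -- the constants
  set V' : ℝ := max V 1 with hV'
  have hV'0 : 0 < V' := lt_of_lt_of_le one_pos (le_max_right _ _)
  set C2 : ℝ := 16 * 6 ^ h * (h + 4) with hC2
  set S0 : ℝ := C2 * ((h : ℝ) ^ h * R * (K h * R)) with hS0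
  set C6 : ℝ := (K h * R) ^ (h - 2) * (4 / κ + 1) ^ h * 8 * S0 * 8 ^ (h - 1) with hC6
  have hK0 : 0 < K h := K_pos (by omega)
  have hC60 : 0 ≤ C6 := by rw [hC6, hS0, hC2]; positivity
  obtain ⟨M, hM0, hM⟩ : ∃ M : ℕ, 0 < M ∧ (C6 / M) ^ (1 / (h : ℝ)) * V' ≤ ε := by
    have h1 : Tendsto (fun M : ℕ => (C6 / (M : ℝ)) ^ (1 / (h : ℝ)) * V') atTop (𝓝 0) := by
      have h2 : Tendsto (fun M : ℕ => C6 / (M : ℝ)) atTop (𝓝 0) :=
        tendsto_const_div_atTop_nhds_zero_nat C6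
      have h3 := h2.rpow_const (p := 1 / (h : ℝ)) (Or.inr hinv0.le)
      rw [Real.zero_rpow hinv0.ne'] at h3
      simpa using h3.mul_const V'
    obtain ⟨M, hM1, hM2⟩ := ((h1.eventually (gt_mem_nhds hε)).and (eventually_gt_atTop 0)).exists
    exact ⟨M, hM2, hM1.le⟩
  obtain ⟨b₀, hb₀5, hb₀⟩ : ∃ b₀ : ℕ, 6 ≤ b₀ ∧ 16 * (1 / 2 : ℝ) ^ b₀ < κ := by
    have h1 : Tendsto (fun b : ℕ => 16 * ((1 : ℝ) / 2) ^ b) atTop (𝓝 0) := by
      simpa using (tendsto_pow_atTop_nhds_zero_of_lt_one (by norm_num : (0 : ℝ) ≤ 1 / 2)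
        (by norm_num)).const_mul 16
    obtain ⟨b, hb1, hb2⟩ := ((h1.eventually (gt_mem_nhds hκ)).and (eventually_ge_atTop 6)).exists
    exact ⟨b, hb2, hb1⟩
  obtain ⟨I, c, b, B, hI, hcov, hsum, hsep⟩ := hV b₀ M
  have hB0 : (0 : ℝ) < (1 / 2) ^ B := by positivity
  have hev : ∀ᶠ n in atTop, e n ≤ (1 / 2 : ℝ) ^ B := (he.eventually (gt_mem_nhds hB0)).mono
    fun n hn => le_of_lt hn
  obtain ⟨N₁, hN₁⟩ := eventually_atTop.1 hev
  filter_upwards [eventually_ge_atTop (max N₁ (2 ^ (B + 1)))] with N hN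
  have hNN₁ : N₁ ≤ N := (le_max_left _ _).trans hN
  have hNB : 2 ^ (B + 1) ≤ N := (le_max_right _ _).trans hN
  have hN0 : 1 ≤ N := le_trans Nat.one_le_two_pow hNB
  set J := Nat.log 2 N with hJ
  have hBJ : B + 1 ≤ J := by
    rw [hJ]
    exact (Nat.le_log_iff_pow_le (by norm_num) (by omega)).2 hNB
  have hJN : 2 ^ J ≤ N := Nat.pow_log_le_self 2 (by omega)
  have hNJ : N < 2 ^ (J + 1) := Nat.lt_pow_succ_log_self (by norm_num) N
  have hlog : Nat.log 2 (2 * N) = J + 1 := by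
    rw [mul_comm, Nat.log_mul_base (by norm_num) (by omega)]
  set F := seg A (2 * N) with hF
  have hRF : ∀ n, RF F h n ≤ h ^ h * R := fun n =>
    (RF_le (fun a ha => (mem_seg.1 ha).2) h n).trans (Nat.mul_le_mul_left _ (hR n))
  have hFc : (F.card : ℝ) ^ h ≤ K h * R * N := by
    have h1 : F.card ≤ (elts A N).card := by
      refine card_le_card fun a ha => ?_
      rw [hF, mem_seg] at ha
      unfold elts
      rw [mem_filter, mem_range, Nat.lt_succ_iff]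
      exact ⟨ha.1.2, ha.2⟩
    have h2 : (F.card : ℝ) ≤ X h R N := by
      have h3 : (F.card : ℝ) ≤ ((elts A N).card : ℝ) := by exact_mod_cast h1
      exact h3.trans (elts_le (by omega) hN0 fun m _ => hR m)
    rw [← X_pow (by omega) R (Nat.cast_nonneg N)]
    exact pow_le_pow_left₀ (Nat.cast_nonneg _) h2 h
  have hpairs := pairs' h hh F (2 * N) (by omega) (seg_sub A (2 * N)) _ hRF
  rw [hlog] at hpairs
  have hpairs' : ∑ i ∈ range (J + 2), close F i ^ h / (2 : ℝ) ^ i ≤ S0 * N := by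
    refine hpairs.trans ?_
    push_cast
    calc 16 * 6 ^ h * ((h : ℝ) + 4) * (((h : ℝ) ^ h * R) * (F.card : ℝ) ^ h)
        ≤ 16 * 6 ^ h * ((h : ℝ) + 4) * (((h : ℝ) ^ h * R) * (K h * R * N)) := by
          refine mul_le_mul_of_nonneg_left (mul_le_mul_of_nonneg_left hFc (by positivity))
            (by positivity)
      _ = S0 * N := by
          rw [hS0, hC2]
          ring
  -- the scales
  set G : ℕ → Finset ℕ := fun m => (I m).image fun k => J + 6 - b m k with hG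
  obtain ⟨m, hm, hmG⟩ := pigeon (fun i => close F i ^ h / (2 : ℝ) ^ i)
    (fun i => div_nonneg (pow_nonneg (close_nonneg F i) _) (by positivity)) (J + 2) M hM0
    (S0 * N) hpairs' G (by
      intro m hm i hi
      obtain ⟨k, hk, rfl⟩ := mem_image.1 hi
      have := hI m hm k hk
      omega) (by
      intro m hm m' hm' hne
      rw [Finset.disjoint_left]
      intro i hi hi'
      obtain ⟨k, hk, rfl⟩ := mem_image.1 hi
      obtain ⟨k', hk', he'⟩ := mem_image.1 hi'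
      have h1 := hI m hm k hk
      have h2 := hI m' hm' k' hk'
      rcases lt_or_gt_of_ne hne with h3 | h3
      · have := hsep m m' h3 k hk k' hk'
        omega
      · have := hsep m' m h3 k' hk' k hk
        omega)
  -- the covering
  have hsub : goodZ A h Z e N ⊆ ⋃ k ∈ I m, good A h (c m k) N ((2 ^ (J + 3 - b m k) : ℕ) : ℝ) := by
    rintro n ⟨n1, n2, a, ha, hsumn, z, hz, hzn⟩
    obtain ⟨k, hk, hzk⟩ := Set.mem_iUnion₂.1 (hcov m hm hz)
    refine Set.mem_iUnion₂.2 ⟨k, hk, n1, n2, a, ha, hsumn, fun i => ?_⟩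
    have h1 := hI m hm k hk
    have h2 : |z i - c m k i| ≤ (1 / 2 : ℝ) ^ b m k := by
      rw [Metric.mem_ball] at hzk
      have := dist_le_pi_dist z (c m k) i
      rw [Real.dist_eq] at this
      linarith
    have h3 : e n ≤ (1 / 2 : ℝ) ^ b m k := by
      refine (hN₁ n (by omega)).trans ?_
      exact pow_le_pow_of_le_one (by norm_num) (by norm_num) h1.2.2
    have hn0 : (0 : ℝ) ≤ n := Nat.cast_nonneg n
    have h4 : |(a i : ℝ) - c m k i * n| ≤ 2 * (1 / 2 : ℝ) ^ b m k * n := by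
      have h5 : (a i : ℝ) - c m k i * n = ((a i : ℝ) - z i * n) + (z i - c m k i) * n := by ring
      rw [h5]
      calc |((a i : ℝ) - z i * n) + (z i - c m k i) * n|
          ≤ |(a i : ℝ) - z i * n| + |(z i - c m k i) * n| := abs_add_le _ _
        _ ≤ e n * n + (1 / 2 : ℝ) ^ b m k * n := by
            rw [abs_mul, abs_of_nonneg hn0]
            exact add_le_add (hzn i) (mul_le_mul_of_nonneg_right h2 hn0)
        _ ≤ _ := by nlinarith
    refine h4.trans ?_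
    have h5 : (n : ℝ) ≤ 2 * N := by exact_mod_cast n2
    have h6 : (N : ℝ) ≤ 2 ^ (J + 1) := by exact_mod_cast hNJ.le
    have h7 : ((2 ^ (J + 3 - b m k) : ℕ) : ℝ) = 4 * 2 ^ (J + 1) * (1 / 2 : ℝ) ^ b m k := by
      push_cast
      have h8 : (2 : ℝ) ^ (J + 3) = 2 ^ (J + 3 - b m k) * 2 ^ b m k := by
        rw [← pow_add]; congr 1; omega
      have h9 : (4 : ℝ) * 2 ^ (J + 1) = 2 ^ (J + 3) := by rw [pow_add, pow_add]; ring
      rw [h9, h8, mul_assoc, ← mul_pow]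
      norm_num
    rw [h7]
    have h8 : (0 : ℝ) < (1 / 2) ^ b m k := by positivity
    nlinarith
  -- the count for one shape
  have hMR : (0 : ℝ) < M := by exact_mod_cast hM0
  have hS00 : 0 ≤ S0 := by rw [hS0, hC2]; positivity
  have hone : ∀ k ∈ I m, ((good A h (c m k) N ((2 ^ (J + 3 - b m k) : ℕ) : ℝ)).ncard : ℝ) ≤
      N * (C6 / M) ^ (1 / (h : ℝ)) * (((1 : ℝ) / 2) ^ b m k) ^ s := by
    intro k hk
    have h1 := hI m hm k hk
    obtain ⟨i₁, i₂, hne, hi₁, hi₂⟩ := hZκ _ h1.1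
    have h3 : close F (J + 6 - b m k) ^ h / (2 : ℝ) ^ (J + 6 - b m k) ≤ S0 * N / M :=
      hmG (J + 6 - b m k) (mem_image_of_mem _ hk)
    rw [div_le_iff₀ (by positivity)] at h3
    have h8 : (1 / 2 : ℝ) ^ b m k ≤ (1 / 2) ^ b₀ :=
      pow_le_pow_of_le_one (by norm_num) (by norm_num) h1.2.1
    have h4 := one_shape (A := A) (R := R) (N := N) (J := J) (b := b m k) hh hR hN0 hJN
      (by omega) hκ (by linarith) (c m k) (hZ h1.1) i₁ i₂ hne hi₁ hi₂ (S0 / M)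
      (by positivity) (by
        refine h3.trans (le_of_eq ?_)
        ring)
    refine h4.trans (le_of_eq ?_)
    rw [hC6]
    congr 3
    ring
  -- conclusion
  have h1 : (goodZ A h Z e N).ncard ≤
      ∑ k ∈ I m, (good A h (c m k) N ((2 ^ (J + 3 - b m k) : ℕ) : ℝ)).ncard := by
    refine (Set.ncard_le_ncard hsub ?_).trans ?_
    · exact Set.Finite.biUnion (Finset.finite_toSet _) fun k _ => good_finite _ _ _ _ _
    · exact Finset.set_ncard_biUnion_le _ _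
  have h2 : ((goodZ A h Z e N).ncard : ℝ) ≤
      ∑ k ∈ I m, ((good A h (c m k) N ((2 ^ (J + 3 - b m k) : ℕ) : ℝ)).ncard : ℝ) := by
    exact_mod_cast h1
  refine h2.trans ((sum_le_sum hone).trans ?_)
  rw [← mul_sum]
  have h3 := hsum m hm
  calc N * (C6 / M) ^ (1 / (h : ℝ)) * ∑ k ∈ I m, (((1 : ℝ) / 2) ^ b m k) ^ s
      ≤ N * (C6 / M) ^ (1 / (h : ℝ)) * V' :=
        mul_le_mul_of_nonneg_left (h3.trans (le_max_left _ _)) (by positivity)
    _ = N * ((C6 / M) ^ (1 / (h : ℝ)) * V') := by ring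
    _ ≤ N * ε := mul_le_mul_of_nonneg_left hM (Nat.cast_nonneg _)
    _ = ε * N := mul_comm _ _

end Pool.Agent.N714.Shape
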