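import Pool.Agent.N714.Shape.Crit

/-!
The theorems on restricted shapes.
-/

set_option autoImplicit false

namespace Pool.Agent.N714.Shape

open Finset MeasureTheory Filter Topology
open scoped ENNReal
open Pool.Agent.TH314.ETH (rep)

/-- the basic inequality with explicit powers -/
lemma basic_real {A : Set ℕ} {h N R L : ℕ} (hh : 2 ≤ h) (hL : 1 ≤ L) (hLN : L ≤ N)
    (hR : ∀ m ≤ h * (2 * N), rep A h m ≤ R) (z : Fin h → ℝ) (hz : z ∈ stdSimplex ℝ (Fin h))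
    (t : ℝ) (ht : 0 < t) (hLt : (L : ℝ) ≤ N * t) :
    ((good A h z N L).ncard : ℝ) ≤ (4 * h + 1) * K h * R * N * t ^ (1 - 1 / (h : ℝ)) := by
  have hh0 : (0 : ℝ) < h := by exact_mod_cast (by omega : 0 < h)
  have hK0 : 0 < K h := K_pos (by omega)
  have hL0 : (0 : ℝ) < L := by exact_mod_cast hL
  have hX0 : 0 ≤ X h R L := X_nonneg h R hL0.le
  have hX1 : 0 ≤ X h R N := X_nonneg h R (Nat.cast_nonneg _)
  refine (basic hh hL hLN hR z hz).trans ?_
  have key : X h R L ^ (h - 1) * X h R N ≤ K h * R * N * t ^ (1 - 1 / (h : ℝ)) := by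
    have e1 : (t ^ (1 - 1 / (h : ℝ))) ^ h = t ^ (h - 1) := by
      rw [← Real.rpow_natCast, ← Real.rpow_mul ht.le, ← Real.rpow_natCast t (h - 1)]
      congr 1
      rw [Nat.cast_sub (by omega)]
      field_simp
      push_cast
      ring
    have h8 : (X h R L ^ (h - 1) * X h R N) ^ h ≤ (K h * R * N * t ^ (1 - 1 / (h : ℝ))) ^ h := by
      calc (X h R L ^ (h - 1) * X h R N) ^ h = (X h R L ^ h) ^ (h - 1) * X h R N ^ h := by
            rw [mul_pow, ← pow_mul, ← pow_mul, mul_comm (h - 1) h]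
        _ = (K h * R * L) ^ (h - 1) * (K h * R * N) := by
            rw [X_pow (by omega) R hL0.le, X_pow (by omega) R (Nat.cast_nonneg _)]
        _ ≤ (K h * R * (N * t)) ^ (h - 1) * (K h * R * N) := by
            refine mul_le_mul_of_nonneg_right ?_ (by positivity)
            exact pow_le_pow_left₀ (by positivity)
              (mul_le_mul_of_nonneg_left hLt (by positivity)) _
        _ = (K h * R * N) ^ h * t ^ (h - 1) := by
            have e2 : (K h * R * N) ^ h = (K h * R * N) ^ (h - 1) * (K h * R * N) := by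
              rw [← pow_succ]; congr 1; omega
            rw [e2, ← mul_assoc, mul_pow]
            ring
        _ = _ := by rw [mul_pow (K h * R * N), e1]
    exact le_of_pow_le_pow_left₀ (by omega) (by positivity) h8
  calc (4 * (h : ℝ) + 1) * (X h R L ^ (h - 1) * X h R N)
      ≤ (4 * (h : ℝ) + 1) * (K h * R * N * t ^ (1 - 1 / (h : ℝ))) :=
        mul_le_mul_of_nonneg_left key (by positivity)
    _ = _ := by ring

/-- a shape with only one large coordinate is near a vertex -/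
lemma near_vertex {h : ℕ} (hh : 2 ≤ h) {κ : ℝ} (hκ : κ ≤ 1 / h) (z : Fin h → ℝ)
    (hz : z ∈ stdSimplex ℝ (Fin h)) (hno : ¬ ∃ i₁ i₂, i₁ ≠ i₂ ∧ κ ≤ z i₁ ∧ κ ≤ z i₂) :
    ∃ i₀, ∀ t, |z t - (Pi.single i₀ (1 : ℝ) : Fin h → ℝ) t| ≤ h * κ := by
  classical
  obtain ⟨hz0, hzs⟩ := hz
  have hh0 : (0 : ℝ) < h := by exact_mod_cast (by omega : 0 < h)
  obtain ⟨i₀, hi₀⟩ : ∃ i, 1 / (h : ℝ) ≤ z i := by
    by_contra hcon
    push Not at hcon
    have h1 : ∑ i, z i < ∑ _i : Fin h, 1 / (h : ℝ) :=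
      sum_lt_sum_of_nonempty ⟨⟨0, by omega⟩, mem_univ _⟩ fun i _ => hcon i
    rw [hzs, sum_const, card_univ, Fintype.card_fin, nsmul_eq_mul, mul_one_div_cancel hh0.ne'] at h1
    exact lt_irrefl _ h1
  have hsmall : ∀ t, t ≠ i₀ → z t < κ := by
    intro t ht
    by_contra hcon
    push Not at hcon
    exact hno ⟨i₀, t, ht.symm, hκ.trans hi₀, hcon⟩
  have hκ0 : 0 < κ := by
    obtain ⟨t, ht⟩ : ∃ t : Fin h, t ≠ i₀ := by
      haveI : Nontrivial (Fin h) := Fin.nontrivial_iff_two_le.2 hh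
      exact exists_ne i₀
    exact lt_of_le_of_lt (hz0 t) (hsmall t ht)
  refine ⟨i₀, fun t => ?_⟩
  have h1h : (1 : ℝ) ≤ h := by exact_mod_cast (by omega : 1 ≤ h)
  by_cases ht : t = i₀
  · subst ht
    rw [Pi.single_eq_same]
    have h1 : ∑ i ∈ univ.erase t, z i ≤ ∑ _i ∈ univ.erase t, κ :=
      sum_le_sum fun i hi => (hsmall i (ne_of_mem_erase hi)).le
    rw [sum_const, card_erase_of_mem (mem_univ _), card_univ, Fintype.card_fin, nsmul_eq_mul] at h1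
    have h2 : z t + ∑ i ∈ univ.erase t, z i = 1 := by rw [add_sum_erase univ z (mem_univ t), hzs]
    have h3 : ((h - 1 : ℕ) : ℝ) ≤ h := by exact_mod_cast Nat.sub_le _ _
    have h4 : 0 ≤ ∑ i ∈ univ.erase t, z i := sum_nonneg fun i _ => hz0 i
    rw [abs_le]
    constructor <;> nlinarith
  · rw [Pi.single_eq_of_ne ht, sub_zero, abs_of_nonneg (hz0 t)]
    have := hsmall t ht
    nlinarith

/-- **shapes near a compact set of finite Hausdorff measure** -/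
theorem main_crit {A : Set ℕ} {h R : ℕ} (hh : 2 ≤ h) (hR : ∀ m, rep A h m ≤ R)
    (Z : Set (Fin h → ℝ)) (hZc : IsCompact Z) (hZ : Z ⊆ stdSimplex ℝ (Fin h))
    (hH : Measure.hausdorffMeasure (1 - 1 / (h : ℝ)) Z ≠ ∞) (e : ℕ → ℝ)
    (he : Tendsto e atTop (𝓝 0)) (ε : ℝ) (hε : 0 < ε) :
    ∀ᶠ N : ℕ in atTop, ((goodZ A h Z e N).ncard : ℝ) ≤ ε * N := by
  classical
  have hh1 : (1 : ℝ) < h := by exact_mod_cast hh
  have hh0 : (0 : ℝ) < h := by linarith
  have hs0 : 0 < 1 - 1 / (h : ℝ) := by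
    have : 1 / (h : ℝ) < 1 := by rw [div_lt_one hh0]; exact hh1
    linarith
  have hK0 : 0 < K h := K_pos (by omega)
  obtain ⟨q, hq⟩ : ∃ q : ℕ,
      h * ((4 * h + 1) * K h * R * (((1 : ℝ) / 2) ^ q) ^ (1 - 1 / (h : ℝ))) < ε / 2 := by
    have h1 : Tendsto (fun q : ℕ =>
        h * ((4 * h + 1) * K h * R * (((1 : ℝ) / 2) ^ q) ^ (1 - 1 / (h : ℝ)))) atTop (𝓝 0) := by
      have h2 : Tendsto (fun b : ℕ => ((1 : ℝ) / 2) ^ b) atTop (𝓝 0) :=
        tendsto_pow_atTop_nhds_zero_of_lt_one (by norm_num) (by norm_num)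
      have h3 := h2.rpow_const (p := 1 - 1 / (h : ℝ)) (Or.inr hs0.le)
      rw [Real.zero_rpow hs0.ne'] at h3
      simpa using (h3.const_mul ((4 * h + 1) * K h * R)).const_mul (h : ℝ)
    exact (h1.eventually (gt_mem_nhds (by positivity))).exists
  set κ : ℝ := (1 / 2 : ℝ) ^ q / (8 * h) with hκ
  have hq0 : (0 : ℝ) < (1 / 2) ^ q := by positivity
  have hq1 : (1 / 2 : ℝ) ^ q ≤ 1 := pow_le_one₀ (by norm_num) (by norm_num)
  have hκ0 : 0 < κ := by rw [hκ]; positivity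
  have hκh : κ ≤ 1 / h := by
    rw [hκ, div_le_div_iff₀ (by positivity) hh0]
    nlinarith
  set Zκ : Set (Fin h → ℝ) := Z ∩ {z | ∃ i₁ i₂, i₁ ≠ i₂ ∧ κ ≤ z i₁ ∧ κ ≤ z i₂} with hZκ
  have hclosed : IsClosed {z : Fin h → ℝ | ∃ i₁ i₂, i₁ ≠ i₂ ∧ κ ≤ z i₁ ∧ κ ≤ z i₂} := by
    have h1 : {z : Fin h → ℝ | ∃ i₁ i₂, i₁ ≠ i₂ ∧ κ ≤ z i₁ ∧ κ ≤ z i₂} =
        ⋃ i₁ : Fin h, ⋃ i₂ : Fin h, {z | i₁ ≠ i₂ ∧ κ ≤ z i₁ ∧ κ ≤ z i₂} := by
      ext z; simp
    rw [h1]
    refine isClosed_iUnion_of_finite fun i₁ => isClosed_iUnion_of_finite fun i₂ => ?_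
    by_cases hne : i₁ = i₂
    · have : {z : Fin h → ℝ | i₁ ≠ i₂ ∧ κ ≤ z i₁ ∧ κ ≤ z i₂} = ∅ := by
        ext z; simp [hne]
      rw [this]; exact isClosed_empty
    · have : {z : Fin h → ℝ | i₁ ≠ i₂ ∧ κ ≤ z i₁ ∧ κ ≤ z i₂} =
          {z | κ ≤ z i₁} ∩ {z | κ ≤ z i₂} := by
        ext z; simp [hne]
      rw [this]
      exact (isClosed_le continuous_const (continuous_apply i₁)).inter
        (isClosed_le continuous_const (continuous_apply i₂))
  have haway := away hh hR Zκ (hZc.inter_right hclosed) (Set.inter_subset_left.trans hZ) hκ0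
    (fun z hz => hz.2) (ne_top_of_le_ne_top hH (measure_mono Set.inter_subset_left)) e he (ε / 2)
    (by positivity)
  have hhκ : 0 < h * κ := by positivity
  have hev : ∀ᶠ n in atTop, e n ≤ h * κ := (he.eventually (gt_mem_nhds hhκ)).mono
    fun n hn => le_of_lt hn
  obtain ⟨N₁, hN₁⟩ := eventually_atTop.1 hev
  filter_upwards [haway, eventually_ge_atTop (max N₁ (2 ^ (q + 1)))] with N hNa hN
  have hNN₁ : N₁ ≤ N := (le_max_left _ _).trans hN
  have hNq : 2 ^ (q + 1) ≤ N := (le_max_right _ _).trans hN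
  have hN0 : 1 ≤ N := le_trans Nat.one_le_two_pow hNq
  set J := Nat.log 2 N with hJ
  have hqJ : q + 1 ≤ J := by
    rw [hJ]
    exact (Nat.le_log_iff_pow_le (by norm_num) (by omega)).2 hNq
  have hJN : 2 ^ J ≤ N := Nat.pow_log_le_self 2 (by omega)
  have hNJ : N < 2 ^ (J + 1) := Nat.lt_pow_succ_log_self (by norm_num) N
  set L : ℕ := 2 ^ (J - q) with hL
  have hL1 : 1 ≤ L := Nat.one_le_two_pow
  have hLN : L ≤ N := by
    rw [hL]
    exact (Nat.pow_le_pow_right (by norm_num) (Nat.sub_le _ _)).trans hJN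
  have hLeq : (L : ℝ) = 2 ^ J * (1 / 2 : ℝ) ^ q := by
    rw [hL]
    push_cast
    have h8 : (2 : ℝ) ^ J = 2 ^ (J - q) * 2 ^ q := by
      rw [← pow_add]; congr 1; omega
    rw [h8, mul_assoc, ← mul_pow]
    norm_num
  have hLt : (L : ℝ) ≤ N * (1 / 2 : ℝ) ^ q := by
    rw [hLeq]
    have h8 : (2 : ℝ) ^ J ≤ N := by exact_mod_cast hJN
    exact mul_le_mul_of_nonneg_right h8 hq0.le
  have hsub : goodZ A h Z e N ⊆ goodZ A h Zκ e N ∪
      ⋃ i₀ ∈ (univ : Finset (Fin h)), good A h (Pi.single i₀ (1 : ℝ)) N (L : ℝ) := by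
    rintro n ⟨n1, n2, a, ha, hsumn, z, hz, hzn⟩
    by_cases hzκ : ∃ i₁ i₂, i₁ ≠ i₂ ∧ κ ≤ z i₁ ∧ κ ≤ z i₂
    · exact Or.inl ⟨n1, n2, a, ha, hsumn, z, ⟨hz, hzκ⟩, hzn⟩
    · right
      obtain ⟨i₀, hi₀⟩ := near_vertex hh hκh z (hZ hz) hzκ
      refine Set.mem_iUnion₂.2 ⟨i₀, mem_univ _, n1, n2, a, ha, hsumn, fun t => ?_⟩
      have hn0 : (0 : ℝ) ≤ n := Nat.cast_nonneg n
      have h3 : e n ≤ h * κ := hN₁ n (by omega)
      have h5 : (a t : ℝ) - (Pi.single i₀ (1 : ℝ) : Fin h → ℝ) t * n = ((a t : ℝ) - z t * n) +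
          (z t - (Pi.single i₀ (1 : ℝ) : Fin h → ℝ) t) * n := by ring
      rw [h5]
      calc |((a t : ℝ) - z t * n) + (z t - (Pi.single i₀ (1 : ℝ) : Fin h → ℝ) t) * n|
          ≤ |(a t : ℝ) - z t * n| + |(z t - (Pi.single i₀ (1 : ℝ) : Fin h → ℝ) t) * n| :=
            abs_add_le _ _
        _ ≤ e n * n + h * κ * n := by
            rw [abs_mul _ (n : ℝ), abs_of_nonneg hn0]
            exact add_le_add (hzn t) (mul_le_mul_of_nonneg_right (hi₀ t) hn0)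
        _ ≤ 2 * (h * κ) * n := by nlinarith
        _ ≤ L := by
            have h6 : (n : ℝ) ≤ 2 * N := by exact_mod_cast n2
            have h7 : (N : ℝ) ≤ 2 ^ (J + 1) := by exact_mod_cast hNJ.le
            rw [pow_succ] at h7
            have h8 : h * κ = (1 / 2 : ℝ) ^ q / 8 := by
              rw [hκ]; field_simp
            rw [hLeq, h8]
            nlinarith
  have h1 : ((goodZ A h Z e N).ncard : ℝ) ≤ (goodZ A h Zκ e N).ncard +
      ∑ i₀ : Fin h, ((good A h (Pi.single i₀ (1 : ℝ)) N (L : ℝ)).ncard : ℝ) := by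
    have h2 : (goodZ A h Z e N).ncard ≤ (goodZ A h Zκ e N).ncard +
        ∑ i₀ : Fin h, (good A h (Pi.single i₀ (1 : ℝ)) N (L : ℝ)).ncard := by
      refine (Set.ncard_le_ncard hsub ?_).trans ((Set.ncard_union_le _ _).trans ?_)
      · exact (goodZ_finite _ _ _ _ _).union
          (Set.Finite.biUnion (Finset.finite_toSet _) fun k _ => good_finite _ _ _ _ _)
      · exact Nat.add_le_add_left (Finset.set_ncard_biUnion_le _ _) _
    exact_mod_cast h2
  have h2 : ∀ i₀ : Fin h, ((good A h (Pi.single i₀ (1 : ℝ)) N (L : ℝ)).ncard : ℝ) ≤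
      (4 * h + 1) * K h * R * N * ((1 / 2 : ℝ) ^ q) ^ (1 - 1 / (h : ℝ)) := fun i₀ =>
    basic_real hh hL1 hLN (fun m _ => hR m) _ (single_mem_stdSimplex ℝ i₀) _ hq0 hLt
  have h3 : ∑ i₀ : Fin h, ((good A h (Pi.single i₀ (1 : ℝ)) N (L : ℝ)).ncard : ℝ) ≤
      h * ((4 * h + 1) * K h * R * N * ((1 / 2 : ℝ) ^ q) ^ (1 - 1 / (h : ℝ))) := by
    refine (sum_le_sum fun i _ => h2 i).trans (le_of_eq ?_)
    rw [sum_const, card_univ, Fintype.card_fin, nsmul_eq_mul]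
  have h4 : h * ((4 * h + 1) * K h * R * N * ((1 / 2 : ℝ) ^ q) ^ (1 - 1 / (h : ℝ))) =
      h * ((4 * h + 1) * K h * R * ((1 / 2 : ℝ) ^ q) ^ (1 - 1 / (h : ℝ))) * N := by ring
  have hNr : (0 : ℝ) ≤ N := Nat.cast_nonneg N
  have h5 : h * ((4 * h + 1) * K h * R * ((1 / 2 : ℝ) ^ q) ^ (1 - 1 / (h : ℝ))) * N ≤
      ε / 2 * N := mul_le_mul_of_nonneg_right hq.le hNr
  linarith

/-- from blocks to the upper density -/
lemma density_zero (T : Set ℕ)
    (H : ∀ ε : ℝ, 0 < ε → ∀ᶠ N : ℕ in atTop, ({n | N < n ∧ n ≤ 2 * N ∧ n ∈ T}.ncard : ℝ) ≤ ε * N)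
    (c : ℝ) (hc : 0 < c) : ∀ᶠ N : ℕ in atTop, ({n | n ≤ N ∧ n ∈ T}.ncard : ℝ) < c * N := by
  set ε : ℝ := c / 8 with hε
  have hε0 : 0 < ε := by positivity
  obtain ⟨N₀, hN₀⟩ := eventually_atTop.1 (H ε hε0)
  have hfin : ∀ N : ℕ, {n | n ≤ N ∧ n ∈ T}.Finite := fun N =>
    (Set.finite_Iic N).subset fun n hn => hn.1
  have key : ∀ N : ℕ, ({n | n ≤ N ∧ n ∈ T}.ncard : ℝ) ≤ (2 * N₀ + 2) + 4 * ε * N := by
    intro N
    induction N using Nat.strong_induction_on with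
    | _ N ih =>
      by_cases hN : N ≤ 2 * N₀ + 1
      · have h1 : {n | n ≤ N ∧ n ∈ T}.ncard ≤ N + 1 := by
          have h2 : {n | n ≤ N ∧ n ∈ T} ⊆ ((range (N + 1) : Finset ℕ) : Set ℕ) := by
            intro n hn
            rw [coe_range, Set.mem_Iio]
            have := hn.1
            omega
          have h3 := Set.ncard_le_ncard h2 (Finset.finite_toSet _)
          rwa [Set.ncard_coe_finset, card_range] at h3
        have h2 : ({n | n ≤ N ∧ n ∈ T}.ncard : ℝ) ≤ 2 * N₀ + 2 := by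
          have : {n | n ≤ N ∧ n ∈ T}.ncard ≤ 2 * N₀ + 2 := by omega
          exact_mod_cast this
        have h3 : 0 ≤ 4 * ε * N := by positivity
        linarith
      · set M := (N + 1) / 2 with hM
        have hMN : M < N := by omega
        have h1 := ih M hMN
        have h2 := hN₀ M (by omega)
        have h3 : {n | n ≤ N ∧ n ∈ T} ⊆
            {n | n ≤ M ∧ n ∈ T} ∪ {n | M < n ∧ n ≤ 2 * M ∧ n ∈ T} := by
          rintro n ⟨h4, h5⟩
          by_cases h6 : n ≤ M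
          · exact Or.inl ⟨h6, h5⟩
          · exact Or.inr ⟨by omega, by omega, h5⟩
        have h4 : {n | n ≤ N ∧ n ∈ T}.ncard ≤
            {n | n ≤ M ∧ n ∈ T}.ncard + {n | M < n ∧ n ≤ 2 * M ∧ n ∈ T}.ncard := by
          refine (Set.ncard_le_ncard h3 ?_).trans (Set.ncard_union_le _ _)
          exact (hfin M).union ((Set.finite_Iic (2 * M)).subset fun n hn => hn.2.1)
        have h5 : ({n | n ≤ N ∧ n ∈ T}.ncard : ℝ) ≤
            {n | n ≤ M ∧ n ∈ T}.ncard + {n | M < n ∧ n ≤ 2 * M ∧ n ∈ T}.ncard := by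
          exact_mod_cast h4
        have h6 : (M : ℝ) ≤ (N + 1) / 2 := by
          rw [le_div_iff₀ (by norm_num)]
          exact_mod_cast (by omega : M * 2 ≤ N + 1)
        have h7 : (2 : ℝ) ≤ N := by exact_mod_cast (by omega : 2 ≤ N)
        nlinarith
  filter_upwards [eventually_gt_atTop ⌈(2 * N₀ + 2) / (c / 2)⌉₊] with N hN
  have h1 := key N
  have h2 : (2 * N₀ + 2) / (c / 2) < (N : ℝ) := Nat.lt_of_ceil_lt hN
  rw [div_lt_iff₀ (by positivity)] at h2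
  rw [hε] at h1
  nlinarith

end Pool.Agent.N714.Shape
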