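import Pool.Agent.R509.ETH.Freq

/-!
The number of close pairs of elements at all dyadic scales.
-/

set_option autoImplicit false

namespace Pool.Agent.N714.Shape

open Finset
open Pool.Agent.TH314.ETH (tup RF RF_le)
open Pool.Agent.R509.ETH (uu uu_nonneg low high hardy)
open Pool.Agent.R509.ET (dif)

/-- the number of pairs at distance less than `2 ^ i` -/
noncomputable def close (F : Finset ℕ) (i : ℕ) : ℝ := ∑ d ∈ Ioo (-(2 : ℤ) ^ i) (2 ^ i), dif F d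

lemma dif_nonneg (F : Finset ℕ) (d : ℤ) : 0 ≤ dif F d := Nat.cast_nonneg _

lemma close_nonneg (F : Finset ℕ) (i : ℕ) : 0 ≤ close F i :=
  sum_nonneg fun d _ => dif_nonneg F d

lemma close_eq (F : Finset ℕ) (i : ℕ) : close F i =
    (((F ×ˢ F).filter (fun p => (p.1 : ℤ) - p.2 ∈ Ioo (-(2 : ℤ) ^ i) (2 ^ i))).card : ℝ) := by
  unfold close
  rw [card_eq_sum_card_fiberwise (f := fun p : ℕ × ℕ => (p.1 : ℤ) - p.2)
    (t := Ioo (-(2 : ℤ) ^ i) (2 ^ i))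
    (s := (F ×ˢ F).filter (fun p => (p.1 : ℤ) - p.2 ∈ Ioo (-(2 : ℤ) ^ i) (2 ^ i)))
    (fun p hp => (mem_filter.1 hp).2)]
  push_cast
  apply sum_congr rfl
  intro d hd
  unfold dif
  congr 2
  ext p
  simp only [mem_filter, mem_product]
  constructor
  · rintro ⟨h, h'⟩
    exact ⟨⟨h, by rw [h']; exact hd⟩, h'⟩
  · rintro ⟨⟨h, _⟩, h'⟩
    exact ⟨h, h'⟩

/-- **close pairs and representations, order `h`** -/
theorem pairs (p : ℕ) (hp : 1 ≤ p) (F : Finset ℕ) (N : ℕ) (hN : 1 ≤ N) (hF : F ⊆ Icc 1 N) (R : ℕ)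
    (hR : ∀ n, RF F (p + 1) n ≤ R) :
    ∑ i ∈ range (Nat.log 2 N + 1), close F i ^ (p + 1) / (2 : ℝ) ^ i ≤
      16 * 6 ^ (p + 1) * (p + 5) * (R * (F.card : ℝ) ^ (p + 1)) := by
  set J := Nat.log 2 N with hJ
  have h1 := hardy p hp (uu F (J + 3)) (uu_nonneg F (J + 3)) J
  have h2 := high F N hF (p + 1) (by omega) (J + 3) J rfl
  have h3 : ∑ n ∈ Icc 1 ((p + 1) * N), (RF F (p + 1) n : ℝ) ^ 2 ≤ R * (F.card : ℝ) ^ (p + 1) := by
    have e1 : ∑ n ∈ Icc 1 ((p + 1) * N), (RF F (p + 1) n : ℝ) ^ 2 ≤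
        ∑ n ∈ Icc 1 ((p + 1) * N), (R : ℝ) * RF F (p + 1) n := by
      apply sum_le_sum
      intro n _
      rw [sq]
      apply mul_le_mul_of_nonneg_right _ (Nat.cast_nonneg _)
      exact_mod_cast hR n
    refine e1.trans ?_
    rw [← mul_sum]
    apply mul_le_mul_of_nonneg_left _ (Nat.cast_nonneg _)
    have e2 : ∑ n ∈ Icc 1 ((p + 1) * N), RF F (p + 1) n ≤ (tup F (p + 1)).card := by
      unfold RF
      have e3 := card_eq_sum_card_fiberwise (f := fun v : Fin (p + 1) → ℕ => ∑ i, v i)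
        (t := Icc 1 ((p + 1) * N))
        (s := (tup F (p + 1)).filter (fun v => ∑ i, v i ∈ Icc 1 ((p + 1) * N)))
        (fun v hv => (mem_filter.1 hv).2)
      refine le_trans (le_of_eq ?_)
        (card_filter_le (tup F (p + 1)) (fun v => ∑ i, v i ∈ Icc 1 ((p + 1) * N)))
      rw [e3]
      apply sum_congr rfl
      intro n hn
      congr 1
      ext v
      simp only [mem_filter]
      constructor
      · rintro ⟨h, h'⟩
        exact ⟨⟨h, by rw [h']; exact hn⟩, h'⟩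
      · rintro ⟨⟨h, _⟩, h'⟩
        exact ⟨h, h'⟩
    have e3 : (tup F (p + 1)).card = F.card ^ (p + 1) := by
      unfold tup
      rw [Fintype.card_piFinset_const]
    rw [e3] at e2
    exact_mod_cast e2
  have h4 : ∀ i ∈ range (J + 1), (2 : ℝ) ^ J / 2 ^ (p + 1) * (close F i ^ (p + 1) / (2 : ℝ) ^ i) ≤
      (∑ d ∈ Ioo (-(2 : ℤ) ^ (J - i)) (2 ^ (J - i)), uu F (J + 3) d) ^ (p + 1) /
        ((2 : ℝ) ^ (J - i)) ^ p := by
    intro i hi
    rw [mem_range] at hi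
    have e1 := low F i (J - i) (J + 3) (by omega)
    have e1' : (2 : ℝ) ^ (J - i) / 2 * close F i ≤
        ∑ ξ ∈ Ioo (-(2 : ℤ) ^ (J - i)) (2 ^ (J - i)), uu F (J + 3) ξ := e1
    set P := close F i with hP
    have hP0 : 0 ≤ P := close_nonneg F i
    set U := ∑ d ∈ Ioo (-(2 : ℤ) ^ (J - i)) (2 ^ (J - i)), uu F (J + 3) d with hU
    have e7 := pow_le_pow_left₀ (by positivity) e1' (p + 1)
    rw [le_div_iff₀ (by positivity)]
    refine le_trans (le_of_eq ?_) e7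
    have e8 : (2 : ℝ) ^ J = 2 ^ i * 2 ^ (J - i) := by rw [← pow_add]; congr 1; omega
    rw [e8, mul_pow, div_pow, pow_succ ((2 : ℝ) ^ (J - i)) p]
    field_simp
  have h5 := sum_le_sum h4
  rw [← mul_sum] at h5
  have h6 : ∑ i ∈ range (J + 1),
      (∑ d ∈ Ioo (-(2 : ℤ) ^ (J - i)) (2 ^ (J - i)), uu F (J + 3) d) ^ (p + 1) /
        ((2 : ℝ) ^ (J - i)) ^ p =
      ∑ j ∈ range (J + 1), (∑ d ∈ Ioo (-(2 : ℤ) ^ j) (2 ^ j), uu F (J + 3) d) ^ (p + 1) /
        ((2 : ℝ) ^ j) ^ p := by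
    have := sum_range_reflect (fun j =>
      (∑ d ∈ Ioo (-(2 : ℤ) ^ j) (2 ^ j), uu F (J + 3) d) ^ (p + 1) / ((2 : ℝ) ^ j) ^ p) (J + 1)
    rw [← this]
    apply sum_congr rfl
    intro i _
    simp only [Nat.add_sub_cancel]
  rw [h6] at h5
  have hJ0 : (0 : ℝ) < 2 ^ J := by positivity
  have hNJ : (N : ℝ) ≤ 2 * 2 ^ J := by
    have := Nat.lt_pow_succ_log_self (b := 2) (by norm_num) N
    rw [← hJ, pow_succ] at this
    have h7 : (N : ℝ) ≤ ((2 ^ J * 2 : ℕ) : ℝ) := by exact_mod_cast this.le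
    push_cast at h7
    linarith
  have h7 : 6 * (((p + 1 : ℕ) : ℝ) * N + (2 : ℝ) ^ (J + 3)) ≤ 12 * (p + 5) * 2 ^ J := by
    have e1 : (2 : ℝ) ^ (J + 3) = 8 * 2 ^ J := by rw [pow_add]; ring
    rw [e1]
    push_cast
    have := mul_le_mul_of_nonneg_left hNJ (by positivity : (0 : ℝ) ≤ (p : ℝ) + 1)
    nlinarith
  set Sg := ∑ i ∈ range (J + 1), close F i ^ (p + 1) / (2 : ℝ) ^ i with hSg
  have h8 : (2 : ℝ) ^ J / 2 ^ (p + 1) * Sg ≤
      4 * 3 ^ p * (12 * (p + 5) * 2 ^ J * (R * (F.card : ℝ) ^ (p + 1))) := by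
    refine h5.trans (h1.trans ?_)
    apply mul_le_mul_of_nonneg_left _ (by positivity)
    refine h2.trans ?_
    apply mul_le_mul h7 h3 (by positivity) (by positivity)
  have h9 : (2 : ℝ) ^ J / 2 ^ (p + 1) * Sg ≤
      (2 : ℝ) ^ J / 2 ^ (p + 1) *
        (16 * 6 ^ (p + 1) * (p + 5) * (R * (F.card : ℝ) ^ (p + 1))) := by
    refine h8.trans (le_of_eq ?_)
    have e1 : (6 : ℝ) ^ (p + 1) = 2 ^ (p + 1) * (3 * 3 ^ p) := by
      rw [← pow_succ', ← mul_pow]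
      norm_num
    rw [e1]
    field_simp
    ring
  exact le_of_mul_le_mul_left h9 (by positivity)

end Pool.Agent.N714.Shape
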