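import Pool.Agent.N714.Shape.Main

/-!
Power growth for shapes near a set of small dimension.
-/

set_option autoImplicit false

namespace Pool.Agent.N714.Shape

open Finset Filter Topology
open Pool.Agent.TH314.ETH (rep)

/-- one block -/
lemma block {A : Set ℕ} {h N R : ℕ} (hh : 2 ≤ h) (hN : 1 ≤ N)
    (hR : ∀ m ≤ h * (2 * N), rep A h m ≤ R) (Z : Set (Fin h → ℝ)) (hZ : Z ⊆ stdSimplex ℝ (Fin h))
    (η : ℝ) (hη : 0 < η) (hη1 : η ≤ 1) (hN5 : 5 * (N : ℝ) ^ (-η) ≤ 1)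
    (G : Finset (Fin h → ℝ)) (hG : (G : Set (Fin h → ℝ)) ⊆ Z)
    (hcov : ∀ z ∈ Z, ∃ g ∈ G, ∀ i, |z i - g i| ≤ (N : ℝ) ^ (-η)) :
    ((goodZ A h Z (fun n => (n : ℝ) ^ (-η)) N).ncard : ℝ) ≤
      G.card * ((4 * h + 1) * K h * R * N * (5 * (N : ℝ) ^ (-η)) ^ (1 - 1 / (h : ℝ))) := by
  classical
  have hNr : (1 : ℝ) ≤ N := by exact_mod_cast hN
  have hN0 : (0 : ℝ) < N := by linarith
  have ht0 : 0 < (N : ℝ) ^ (-η) := Real.rpow_pos_of_pos hN0 _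
  have h1N : 1 ≤ N * (N : ℝ) ^ (-η) := by
    have h1 : N * (N : ℝ) ^ (-η) = (N : ℝ) ^ (1 - η) := by
      rw [sub_eq_add_neg, Real.rpow_add hN0, Real.rpow_one]
    rw [h1]
    exact Real.one_le_rpow hNr (by linarith)
  set L : ℕ := ⌈4 * (N * (N : ℝ) ^ (-η))⌉₊ with hL
  have hL4 : 4 * (N * (N : ℝ) ^ (-η)) ≤ L := Nat.le_ceil _
  have hL1 : 1 ≤ L := by
    have : (1 : ℝ) ≤ L := by linarith
    exact_mod_cast this
  have hLt : (L : ℝ) ≤ N * (5 * (N : ℝ) ^ (-η)) := by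
    have := (Nat.ceil_lt_add_one (by positivity : 0 ≤ 4 * (N * (N : ℝ) ^ (-η)))).le
    rw [← hL] at this
    linarith
  have hLN : L ≤ N := by
    have : (L : ℝ) ≤ N := hLt.trans (by nlinarith)
    exact_mod_cast this
  have hsub : goodZ A h Z (fun n => (n : ℝ) ^ (-η)) N ⊆ ⋃ g ∈ G, good A h g N (L : ℝ) := by
    rintro n ⟨n1, n2, a, ha, hsumn, z, hz, hzn⟩
    obtain ⟨g, hg, hzg⟩ := hcov z hz
    refine Set.mem_iUnion₂.2 ⟨g, hg, n1, n2, a, ha, hsumn, fun i => ?_⟩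
    have hn0 : (0 : ℝ) ≤ n := Nat.cast_nonneg n
    have h3 : (n : ℝ) ^ (-η) ≤ (N : ℝ) ^ (-η) := by
      refine Real.rpow_le_rpow_of_nonpos hN0 ?_ (by linarith)
      exact_mod_cast n1.le
    have h5 : (a i : ℝ) - g i * n = ((a i : ℝ) - z i * n) + (z i - g i) * n := by ring
    rw [h5]
    calc |((a i : ℝ) - z i * n) + (z i - g i) * n|
        ≤ |(a i : ℝ) - z i * n| + |(z i - g i) * n| := abs_add_le _ _
      _ ≤ (N : ℝ) ^ (-η) * n + (N : ℝ) ^ (-η) * n := by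
          rw [abs_mul _ (n : ℝ), abs_of_nonneg hn0]
          exact add_le_add ((hzn i).trans (mul_le_mul_of_nonneg_right h3 hn0))
            (mul_le_mul_of_nonneg_right (hzg i) hn0)
      _ ≤ 4 * (N * (N : ℝ) ^ (-η)) := by
          have h6 : (n : ℝ) ≤ 2 * N := by exact_mod_cast n2
          nlinarith
      _ ≤ L := hL4
  have h1 : ((goodZ A h Z (fun n => (n : ℝ) ^ (-η)) N).ncard : ℝ) ≤
      ∑ g ∈ G, ((good A h g N (L : ℝ)).ncard : ℝ) := by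
    have h2 : (goodZ A h Z (fun n => (n : ℝ) ^ (-η)) N).ncard ≤
        ∑ g ∈ G, (good A h g N (L : ℝ)).ncard := by
      refine (Set.ncard_le_ncard hsub ?_).trans (Finset.set_ncard_biUnion_le _ _)
      exact Set.Finite.biUnion (Finset.finite_toSet _) fun k _ => good_finite _ _ _ _ _
    exact_mod_cast h2
  refine h1.trans ((sum_le_sum fun g hg => basic_real hh hL1 hLN hR g (hZ (hG hg)) _
    (by positivity) hLt).trans (le_of_eq ?_))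
  rw [sum_const, nsmul_eq_mul]

/-- **power growth** -/
theorem main_quant {A : Set ℕ} {h : ℕ} (hh : 2 ≤ h) (Z : Set (Fin h → ℝ))
    (hZ : Z ⊆ stdSimplex ℝ (Fin h)) (d η B : ℝ) (hdh : d < 1 - 1 / (h : ℝ))
    (hη : 0 < η) (hη1 : η ≤ 1)
    (hcov : ∀ δ : ℝ, 0 < δ → δ ≤ 1 → ∃ G : Finset (Fin h → ℝ), (G : Set (Fin h → ℝ)) ⊆ Z ∧
      (G.card : ℝ) ≤ B * δ ^ (-d) ∧ ∀ z ∈ Z, ∃ g ∈ G, ∀ i, |z i - g i| ≤ δ)
    (c : ℝ) (hc : 0 < c)
    (hfr : ∃ᶠ N : ℕ in atTop, c * N ≤ ({n | n ≤ N ∧ n ∈ {n : ℕ | ∃ a : Fin h → ℕ, (∀ i, a i ∈ A) ∧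
      ∑ i, a i = n ∧ ∃ z ∈ Z, ∀ i, |(a i : ℝ) - z i * n| ≤ (n : ℝ) ^ (-η) * n}}.ncard : ℝ)) :
    ∃ c' : ℝ, 0 < c' ∧ ∃ᶠ n : ℕ in atTop,
      c' * (n : ℝ) ^ (η * (1 - 1 / (h : ℝ) - d)) ≤ rep A h n := by
  classical
  by_contra hcon
  push Not at hcon
  set γ : ℝ := η * (1 - 1 / (h : ℝ) - d) with hγ
  have hγ0 : 0 < γ := mul_pos hη (by linarith)
  have hK0 : 0 < K h := K_pos (by omega)
  set Q : ℝ := 5 * |B| * (4 * h + 1) * K h + 1 with hQ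
  have hQ0 : 0 < Q := by rw [hQ]; positivity
  have hh0 : (0 : ℝ) < h := by exact_mod_cast (by omega : 0 < h)
  have h2h : 0 < (2 * (h : ℝ)) ^ γ := Real.rpow_pos_of_pos (by positivity) _
  have hs0 : 0 ≤ 1 - 1 / (h : ℝ) := by
    have : 1 / (h : ℝ) ≤ 1 := by
      rw [div_le_one hh0]; exact_mod_cast (by omega : 1 ≤ h)
    linarith
  refine hfr ((density_zero _ ?_ c hc).mono fun N hN => not_le.2 hN)
  intro ε hε
  set c' : ℝ := ε / (2 * Q * (2 * (h : ℝ)) ^ γ) with hc'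
  have hc'0 : 0 < c' := by rw [hc']; positivity
  obtain ⟨m₀, hm₀⟩ := eventually_atTop.1 (hcon c' hc'0)
  set R₀ : ℕ := (range m₀).sup (fun m => rep A h m) with hR₀
  have hR₀' : ∀ m < m₀, rep A h m ≤ R₀ := fun m hm =>
    Finset.le_sup (f := fun m => rep A h m) (mem_range.2 hm)
  -- large `N`
  have ht : Tendsto (fun N : ℕ => (N : ℝ) ^ (-η)) atTop (𝓝 0) :=
    (tendsto_rpow_neg_atTop hη).comp tendsto_natCast_atTop_atTop
  have ht2 : Tendsto (fun N : ℕ => Q * R₀ * (N : ℝ) ^ (-γ)) atTop (𝓝 0) := by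
    simpa using ((tendsto_rpow_neg_atTop hγ0).comp tendsto_natCast_atTop_atTop).const_mul (Q * R₀)
  have ev1 : ∀ᶠ N : ℕ in atTop, 5 * (N : ℝ) ^ (-η) ≤ 1 := by
    have h1 := (ht.const_mul 5)
    rw [mul_zero] at h1
    exact (h1.eventually (gt_mem_nhds one_pos)).mono fun N hN => le_of_lt hN
  have ev2 : ∀ᶠ N : ℕ in atTop, Q * R₀ * (N : ℝ) ^ (-γ) ≤ ε / 2 :=
    (ht2.eventually (gt_mem_nhds (by positivity : 0 < ε / 2))).mono fun N hN => le_of_lt hN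
  filter_upwards [ev1, ev2, eventually_ge_atTop 1] with N h1 h2 hN
  have hNr : (1 : ℝ) ≤ N := by exact_mod_cast hN
  have hN0 : (0 : ℝ) < N := by linarith
  set R : ℕ := ⌊c' * ((h * (2 * N) : ℕ) : ℝ) ^ γ⌋₊ + R₀ with hR
  have hRb : ∀ m ≤ h * (2 * N), rep A h m ≤ R := by
    intro m hm
    rcases lt_or_ge m m₀ with h3 | h3
    · exact (hR₀' m h3).trans (Nat.le_add_left _ _)
    · refine le_trans (Nat.le_floor ?_) (Nat.le_add_right _ _)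
      refine (hm₀ m h3).le.trans ?_
      refine mul_le_mul_of_nonneg_left ?_ hc'0.le
      exact Real.rpow_le_rpow (Nat.cast_nonneg _) (by exact_mod_cast hm) hγ0.le
  have ht0 : 0 < (N : ℝ) ^ (-η) := Real.rpow_pos_of_pos hN0 _
  obtain ⟨G, hGZ, hGc, hGcov⟩ := hcov ((N : ℝ) ^ (-η)) ht0 (by linarith)
  have h3 := block (A := A) hh hN hRb Z hZ η hη hη1 h1 G hGZ hGcov
  change ((goodZ A h Z (fun n => (n : ℝ) ^ (-η)) N).ncard : ℝ) ≤ ε * N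
  refine h3.trans ?_
  have hRle : (R : ℝ) ≤ c' * ((2 * (h : ℝ)) ^ γ * (N : ℝ) ^ γ) + R₀ := by
    rw [hR]
    push_cast
    have h4 : 0 ≤ c' * (h * (2 * (N : ℝ))) ^ γ := by positivity
    have h5 := Nat.floor_le h4
    have h6 : (h * (2 * (N : ℝ))) ^ γ = (2 * (h : ℝ)) ^ γ * (N : ℝ) ^ γ := by
      rw [← Real.mul_rpow (by positivity) (by positivity)]
      congr 1
      ring
    rw [h6] at h5 ⊢
    linarith
  have h5s : (5 * (N : ℝ) ^ (-η)) ^ (1 - 1 / (h : ℝ)) ≤ 5 * ((N : ℝ) ^ (-η)) ^ (1 - 1 / (h : ℝ)) := by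
    rw [Real.mul_rpow (by norm_num) ht0.le]
    refine mul_le_mul_of_nonneg_right ?_ (Real.rpow_nonneg ht0.le _)
    calc (5 : ℝ) ^ (1 - 1 / (h : ℝ)) ≤ (5 : ℝ) ^ (1 : ℝ) :=
          Real.rpow_le_rpow_of_exponent_le (by norm_num) (by
            have : 0 < 1 / (h : ℝ) := by positivity
            linarith)
      _ = 5 := Real.rpow_one 5
  have hG' : (G.card : ℝ) ≤ |B| * ((N : ℝ) ^ (-η)) ^ (-d) :=
    hGc.trans (mul_le_mul_of_nonneg_right (le_abs_self B) (Real.rpow_nonneg ht0.le _))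
  have hprod : ((N : ℝ) ^ (-η)) ^ (-d) * ((N : ℝ) ^ (-η)) ^ (1 - 1 / (h : ℝ)) = (N : ℝ) ^ (-γ) := by
    rw [← Real.rpow_add ht0, ← Real.rpow_mul hN0.le]
    congr 1
    rw [hγ]
    ring
  have hγN : (N : ℝ) ^ γ * (N : ℝ) ^ (-γ) = 1 := by
    rw [← Real.rpow_add hN0]
    simp
  calc (G.card : ℝ) * ((4 * h + 1) * K h * R * N * (5 * (N : ℝ) ^ (-η)) ^ (1 - 1 / (h : ℝ)))
      ≤ (|B| * ((N : ℝ) ^ (-η)) ^ (-d)) * ((4 * h + 1) * K h * R * N *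
          (5 * ((N : ℝ) ^ (-η)) ^ (1 - 1 / (h : ℝ)))) := by
        refine mul_le_mul hG' ?_ (by positivity) (by positivity)
        exact mul_le_mul_of_nonneg_left h5s (by positivity)
    _ = (5 * |B| * (4 * h + 1) * K h) * (R * (((N : ℝ) ^ (-η)) ^ (-d) *
          ((N : ℝ) ^ (-η)) ^ (1 - 1 / (h : ℝ)))) * N := by ring
    _ = (5 * |B| * (4 * h + 1) * K h) * (R * (N : ℝ) ^ (-γ)) * N := by rw [hprod]
    _ ≤ Q * (R * (N : ℝ) ^ (-γ)) * N := by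
        refine mul_le_mul_of_nonneg_right (mul_le_mul_of_nonneg_right ?_ (by positivity)) hN0.le
        rw [hQ]; linarith
    _ ≤ Q * ((c' * ((2 * (h : ℝ)) ^ γ * (N : ℝ) ^ γ) + R₀) * (N : ℝ) ^ (-γ)) * N := by
        refine mul_le_mul_of_nonneg_right (mul_le_mul_of_nonneg_left
          (mul_le_mul_of_nonneg_right hRle (by positivity)) hQ0.le) hN0.le
    _ = (Q * c' * (2 * (h : ℝ)) ^ γ * ((N : ℝ) ^ γ * (N : ℝ) ^ (-γ)) +
          Q * R₀ * (N : ℝ) ^ (-γ)) * N := by ring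
    _ ≤ (ε / 2 + ε / 2) * N := by
        refine mul_le_mul_of_nonneg_right (add_le_add (le_of_eq ?_) h2) hN0.le
        rw [hγN, hc']
        field_simp
    _ = ε * N := by ring

end Pool.Agent.N714.Shape
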